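import Pool.Agent.P.MP_cfb0df_co.Theta

set_option autoImplicit false

open Finset

namespace Pool.Agent.P.MP_cfb0df_co

theorem sum_fun_succ {Ω : Type} [Fintype Ω] {k : ℕ} (F : (Fin (k + 1) → Ω) → ℝ) :
    ∑ g, F g = ∑ x, ∑ g : Fin k → Ω, F (Fin.cons x g) := by
  rw [← Fintype.sum_prod_type']
  exact (Fintype.sum_equiv (Fin.consEquiv fun _ => Ω) _ _ (fun _ => rfl)).symm

/-- first endpoints of the nine edges -/
def eu : Fin 9 → Fin 8 := ![0, 4, 0, 5, 2, 2, 3, 6, 7]
/-- second endpoints of the nine edges -/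
def ev : Fin 9 → Fin 8 := ![4, 1, 5, 1, 0, 3, 6, 7, 1]

theorem sum_theta {Ω : Type} [Fintype Ω] (T : Sym3 Ω) :
    ∑ g : Fin 8 → Ω, ∏ i : Fin 9, T.U (g (eu i)) (g (ev i)) = T.hom := by
  simp only [sum_fun_succ, Fin.prod_univ_succ, eu, ev]
  simp only [Finset.univ_unique, Finset.sum_singleton, Fin.prod_univ_zero]
  unfold Sym3.hom Sym3.S3 Sym3.S2
  refine Finset.sum_congr rfl fun y _ => Finset.sum_congr rfl fun q _ =>
    Finset.sum_congr rfl fun v _ => Finset.sum_congr rfl fun x _ => ?_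
  simp only [Finset.sum_mul, Finset.mul_sum]
  symm
  calc _ = ∑ a, ∑ b, ∑ w', ∑ w, T.U y w * T.U w q * (T.U y w' * T.U w' q) * T.U v y * T.U v x *
        (T.U x a * (T.U a b * T.U b q)) := rfl
    _ = ∑ a, ∑ w', ∑ b, ∑ w, T.U y w * T.U w q * (T.U y w' * T.U w' q) * T.U v y * T.U v x *
        (T.U x a * (T.U a b * T.U b q)) := Finset.sum_congr rfl fun _ _ => Finset.sum_comm
    _ = ∑ w', ∑ a, ∑ b, ∑ w, T.U y w * T.U w q * (T.U y w' * T.U w' q) * T.U v y * T.U v x *
        (T.U x a * (T.U a b * T.U b q)) := Finset.sum_comm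
    _ = ∑ w', ∑ a, ∑ w, ∑ b, T.U y w * T.U w q * (T.U y w' * T.U w' q) * T.U v y * T.U v x *
        (T.U x a * (T.U a b * T.U b q)) :=
        Finset.sum_congr rfl fun _ _ => Finset.sum_congr rfl fun _ _ => Finset.sum_comm
    _ = ∑ w', ∑ w, ∑ a, ∑ b, T.U y w * T.U w q * (T.U y w' * T.U w' q) * T.U v y * T.U v x *
        (T.U x a * (T.U a b * T.U b q)) := Finset.sum_congr rfl fun _ _ => Finset.sum_comm
    _ = _ := by
        refine Finset.sum_congr rfl fun w _ => Finset.sum_congr rfl fun w' _ =>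
          Finset.sum_congr rfl fun a _ => Finset.sum_congr rfl fun b _ => ?_
        change _ = T.U y w * (T.U w q * (T.U y w' * (T.U w' q * (T.U v y * (T.U v x *
          (T.U x a * (T.U a b * (T.U b q * 1))))))))
        ring

/-- the indicator of a 3-graph -/
noncomputable def ind {n : ℕ} (G : Finset (Finset (Fin n))) : Sym3 (Fin n) where
  W x y z := if ({x, y, z} : Finset (Fin n)) ∈ G then 1 else 0
  nonneg x y z := by split_ifs <;> norm_num
  s12 x y z := by rw [Finset.insert_comm]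
  s23 x y z := by rw [Finset.pair_comm y z]

theorem N_ge {n : ℕ} (G : Finset (Finset (Fin n))) (hG : ∀ g ∈ G, g.card = 3) :
    ((6 * G.card : ℕ) : ℝ) ≤ (ind G).N := by
  have e : (ind G).N = ∑ g ∈ G, ∑ p : Fin n × Fin n × Fin n,
      if ({p.1, p.2.1, p.2.2} : Finset (Fin n)) = g then (1 : ℝ) else 0 := by
    rw [Finset.sum_comm]
    simp only [Finset.sum_ite_eq, Fintype.sum_prod_type]
    rfl
  rw [e]
  have : ((6 * G.card : ℕ) : ℝ) = ∑ g ∈ G, (6 : ℝ) := by simp [mul_comm]
  rw [this]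
  refine Finset.sum_le_sum fun g hg => ?_
  obtain ⟨a, b, c, hab, hac, hbc, rfl⟩ := Finset.card_eq_three.1 (hG g hg)
  rw [Finset.sum_boole]
  have hsub : ({(a, b, c), (a, c, b), (b, a, c), (b, c, a), (c, a, b), (c, b, a)} :
      Finset (Fin n × Fin n × Fin n)) ⊆
      Finset.univ.filter (fun p : Fin n × Fin n × Fin n =>
        ({p.1, p.2.1, p.2.2} : Finset (Fin n)) = {a, b, c}) := by
    intro p hp
    simp only [Finset.mem_insert, Finset.mem_singleton] at hp
    simp only [Finset.mem_filter, Finset.mem_univ, true_and]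
    rcases hp with rfl | rfl | rfl | rfl | rfl | rfl <;> ext t <;> simp <;> tauto
  have hc : ({(a, b, c), (a, c, b), (b, a, c), (b, c, a), (c, a, b), (c, b, a)} :
      Finset (Fin n × Fin n × Fin n)).card = 6 := by
    have hba := hab.symm
    have hca := hac.symm
    have hcb := hbc.symm
    rw [Finset.card_insert_of_notMem, Finset.card_insert_of_notMem, Finset.card_insert_of_notMem,
      Finset.card_insert_of_notMem, Finset.card_insert_of_notMem, Finset.card_singleton] <;>
      simp [*]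
  have := Finset.card_le_card hsub
  rw [hc] at this
  exact_mod_cast this

theorem count_eq {n : ℕ} (G : Finset (Finset (Fin n))) :
    ((Finset.univ.filter
      (fun f : Fin 8 ⊕ (Fin 9 × Fin 1) → Fin n =>
        ∀ i : Fin 9,
          ((({eu i, ev i} : Finset (Fin 8))).image (Sum.inl : Fin 8 → Fin 8 ⊕ (Fin 9 × Fin 1)) ∪
            (Finset.univ : Finset (Fin 1)).image
              (fun j : Fin 1 => (Sum.inr (i, j) : Fin 8 ⊕ (Fin 9 × Fin 1)))).image f ∈ G)).card : ℝ)
      = (ind G).hom := by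
  rw [← sum_theta, ← Finset.sum_boole]
  rw [← (Equiv.sumArrowEquivProdArrow (Fin 8) (Fin 9 × Fin 1) (Fin n)).symm.sum_comp,
    Fintype.sum_prod_type]
  refine Finset.sum_congr rfl fun g _ => ?_
  have e1 : ∏ i : Fin 9, (ind G).U (g (eu i)) (g (ev i)) =
      ∏ b : Fin 9 × Fin 1, ∑ z, (ind G).W (g (eu b.1)) (g (ev b.1)) z := by
    rw [Fintype.prod_prod_type]
    simp [Sym3.U]
  rw [e1, Fintype.prod_sum]
  refine Finset.sum_congr rfl fun h _ => ?_
  rw [Fintype.prod_prod_type]
  have : ∀ a b c : Fin n, ({a, b} ∪ {c} : Finset (Fin n)) = {a, b, c} := by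
    intro a b c; ext t; simp
  simp only [ind, Finset.univ_unique, Finset.prod_singleton,
    Finset.image_singleton, Finset.image_insert, Finset.image_union, this]
  rw [Finset.prod_boole]
  simp only [Finset.mem_univ, true_imp_iff]
  rfl

end Pool.Agent.P.MP_cfb0df_co
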