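import Mathlib

set_option autoImplicit false

open Finset

namespace Pool.Agent.P.MP_cfb0df_co

/-- log-sum inequality in a flexible form -/
theorem gibbs {ι : Type} [Fintype ι] (A B l : ι → ℝ) (s t : ℝ)
    (hA : ∀ i, 0 ≤ A i) (hB : ∀ i, 0 ≤ B i)
    (h : ∀ i, 0 < A i → 0 < B i ∧ l i ≤ Real.log (B i) - Real.log (A i))
    (hs : ∑ i, A i = s) (ht : ∑ i, B i ≤ t) :
    ∑ i, A i * l i ≤ s * (Real.log t - Real.log s) ∧ (0 < s → 0 < t) := by
  by_cases h0 : ∃ i, 0 < A i
  · obtain ⟨i0, hi0⟩ := h0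
    have hspos : 0 < s := by
      rw [← hs]
      exact lt_of_lt_of_le hi0 (Finset.single_le_sum (fun i _ => hA i) (Finset.mem_univ i0))
    have htpos : 0 < t := by
      refine lt_of_lt_of_le (h i0 hi0).1 (le_trans ?_ ht)
      exact Finset.single_le_sum (fun i _ => hB i) (Finset.mem_univ i0)
    refine ⟨?_, fun _ => htpos⟩
    have key : ∀ i, A i * l i ≤ A i * (Real.log t - Real.log s) + (B i * s / t - A i) := by
      intro i
      rcases (hA i).eq_or_lt with hi | hi
      · rw [← hi]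
        have : 0 ≤ B i * s / t := by have := hB i; positivity
        simp; exact this
      · obtain ⟨hBi, hl⟩ := h i hi
        have h1 : Real.log (B i * s / (A i * t)) ≤ B i * s / (A i * t) - 1 :=
          Real.log_le_sub_one_of_pos (by positivity)
        rw [Real.log_div (by positivity) (by positivity), Real.log_mul hBi.ne' hspos.ne',
          Real.log_mul hi.ne' htpos.ne'] at h1
        have h2 : A i * (B i * s / (A i * t) - 1) = B i * s / t - A i := by
          field_simp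
        have h3 := mul_le_mul_of_nonneg_left h1 hi.le
        have h4 := mul_le_mul_of_nonneg_left hl hi.le
        rw [h2] at h3
        nlinarith
    calc ∑ i, A i * l i ≤ ∑ i, (A i * (Real.log t - Real.log s) + (B i * s / t - A i)) :=
          Finset.sum_le_sum fun i _ => key i
      _ = s * (Real.log t - Real.log s) + ((∑ i, B i) * s / t - s) := by
          rw [Finset.sum_add_distrib, Finset.sum_sub_distrib, ← Finset.sum_mul, hs,
            ← Finset.sum_div, ← Finset.sum_mul]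
      _ ≤ s * (Real.log t - Real.log s) := by
          have : (∑ i, B i) * s / t ≤ s := by
            rw [div_le_iff₀ htpos]; nlinarith
          linarith
  · push Not at h0
    have hz : ∀ i, A i = 0 := fun i => le_antisymm (h0 i) (hA i)
    have : s = 0 := by rw [← hs]; simp [hz]
    simp [hz, this]

variable {Ω : Type} [Fintype Ω]

/-- the data of a symmetric nonnegative function of three variables -/
structure Sym3 (Ω : Type) where
  W : Ω → Ω → Ω → ℝ
  nonneg : ∀ x y z, 0 ≤ W x y z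
  s12 : ∀ x y z, W x y z = W y x z
  s23 : ∀ x y z, W x y z = W x z y

namespace Sym3

variable (T : Sym3 Ω)

noncomputable def U (x y : Ω) : ℝ := ∑ z, T.W x y z
noncomputable def d (x : Ω) : ℝ := ∑ y, T.U x y
noncomputable def N : ℝ := ∑ x, T.d x
noncomputable def M2 (y q : Ω) : ℝ := ∑ w, T.U y w * (T.d w)⁻¹ * T.U w q
noncomputable def M3 (x q : Ω) : ℝ := ∑ y, T.U x y * (T.d y)⁻¹ * T.M2 y q
noncomputable def S2 (y q : Ω) : ℝ := ∑ w, T.U y w * T.U w q
noncomputable def S3 (x q : Ω) : ℝ := ∑ y, T.U x y * T.S2 y q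
noncomputable def R (v x q : Ω) : ℝ := ∑ y, T.W v x y * (T.d y)⁻¹ * T.M2 y q

theorem U_nonneg (x y : Ω) : 0 ≤ T.U x y := Finset.sum_nonneg fun z _ => T.nonneg x y z
theorem d_nonneg (x : Ω) : 0 ≤ T.d x := Finset.sum_nonneg fun y _ => T.U_nonneg x y
theorem U_symm (x y : Ω) : T.U x y = T.U y x := by
  unfold U; exact Finset.sum_congr rfl fun z _ => T.s12 x y z
theorem M2_nonneg (x y : Ω) : 0 ≤ T.M2 x y := Finset.sum_nonneg fun w _ => by
  have := T.U_nonneg x w; have := T.U_nonneg w y; have := T.d_nonneg w; positivity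
theorem M3_nonneg (x y : Ω) : 0 ≤ T.M3 x y := Finset.sum_nonneg fun w _ => by
  have := T.U_nonneg x w; have := T.M2_nonneg w y; have := T.d_nonneg w; positivity
theorem S2_nonneg (x y : Ω) : 0 ≤ T.S2 x y := Finset.sum_nonneg fun w _ => by
  have := T.U_nonneg x w; have := T.U_nonneg w y; positivity
theorem S3_nonneg (x y : Ω) : 0 ≤ T.S3 x y := Finset.sum_nonneg fun w _ => by
  have := T.U_nonneg x w; have := T.S2_nonneg w y; positivity
theorem R_nonneg (v x q : Ω) : 0 ≤ T.R v x q := Finset.sum_nonneg fun w _ => by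
  have := T.nonneg v x w; have := T.M2_nonneg w q; have := T.d_nonneg w; positivity

theorem U_le_d (x y : Ω) : T.U x y ≤ T.d x :=
  Finset.single_le_sum (f := fun y => T.U x y) (fun y _ => T.U_nonneg x y) (Finset.mem_univ y)

theorem sum_U_left (y : Ω) : ∑ x, T.U x y = T.d y := by
  unfold d; exact Finset.sum_congr rfl fun x _ => T.U_symm x y

theorem U_mul_inv_mul (x y : Ω) : T.U x y * (T.d y)⁻¹ * T.d y = T.U x y := by
  rcases (T.d_nonneg y).eq_or_lt with h | h
  · have h1 := T.U_le_d y x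
    have h2 := T.U_nonneg y x
    have : T.U x y = 0 := by rw [T.U_symm]; linarith
    simp [this]
  · field_simp

theorem sum_M2 (y : Ω) : ∑ q, T.M2 y q = T.d y := by
  unfold M2
  rw [Finset.sum_comm]
  unfold d
  refine Finset.sum_congr rfl fun w _ => ?_
  rw [← Finset.mul_sum]
  exact T.U_mul_inv_mul y w

theorem M2_le_d (y q : Ω) : T.M2 y q ≤ T.d y := by
  rw [← T.sum_M2]
  exact Finset.single_le_sum (f := fun q => T.M2 y q) (fun q _ => T.M2_nonneg y q)
    (Finset.mem_univ q)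

theorem d_mul_inv_mul (y q : Ω) : T.d y * (T.d y)⁻¹ * T.M2 y q = T.M2 y q := by
  rcases (T.d_nonneg y).eq_or_lt with h | h
  · have h1 := T.M2_le_d y q
    have h2 := T.M2_nonneg y q
    have : T.M2 y q = 0 := by linarith
    simp [this]
  · field_simp

theorem sum_M3 (x : Ω) : ∑ q, T.M3 x q = T.d x := by
  unfold M3
  rw [Finset.sum_comm]
  unfold d
  refine Finset.sum_congr rfl fun w _ => ?_
  rw [← Finset.mul_sum, T.sum_M2]
  exact T.U_mul_inv_mul x w

theorem sum_R_mid (v q : Ω) : ∑ x, T.R v x q = T.M3 v q := by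
  unfold R M3
  rw [Finset.sum_comm]
  refine Finset.sum_congr rfl fun y _ => ?_
  rw [← Finset.sum_mul, ← Finset.sum_mul]
  congr 2
  unfold U
  exact Finset.sum_congr rfl fun x _ => T.s23 v x y

theorem R_symm (v x q : Ω) : T.R v x q = T.R x v q := by
  unfold R; exact Finset.sum_congr rfl fun y _ => by rw [T.s12]

theorem R_le_M3 (v x q : Ω) : T.R v x q ≤ T.M3 v q := by
  rw [← T.sum_R_mid]
  exact Finset.single_le_sum (f := fun x => T.R v x q) (fun x _ => T.R_nonneg v x q)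
    (Finset.mem_univ x)

noncomputable def Lam : ℝ := ∑ x, T.d x * Real.log (T.d x)
noncomputable def H2 : ℝ := ∑ y, ∑ q, T.M2 y q * Real.log (T.M2 y q)
noncomputable def H3 : ℝ := ∑ y, ∑ q, T.M3 y q * Real.log (T.M3 y q)
noncomputable def K2 : ℝ := ∑ y, ∑ q, T.M2 y q * Real.log (T.S2 y q)
noncomputable def K3 : ℝ := ∑ y, ∑ q, T.M3 y q * Real.log (T.S3 y q)

theorem stepA2_pt (y q : Ω) :
    ∑ w, T.U y w * (T.d w)⁻¹ * T.U w q * Real.log (T.d w) ≤
      T.M2 y q * (Real.log (T.S2 y q) - Real.log (T.M2 y q)) ∧ (0 < T.M2 y q → 0 < T.S2 y q) := by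
  refine gibbs (fun w => T.U y w * (T.d w)⁻¹ * T.U w q) (fun w => T.U y w * T.U w q)
    (fun w => Real.log (T.d w)) _ _ ?_ ?_ ?_ rfl le_rfl
  · intro w
    have := T.U_nonneg y w; have := T.U_nonneg w q; have := T.d_nonneg w; positivity
  · intro w
    have := T.U_nonneg y w; have := T.U_nonneg w q; positivity
  · intro w hw
    have h1 : T.U y w ≠ 0 := by intro h; simp [h] at hw
    have h2 : T.U w q ≠ 0 := by intro h; simp [h] at hw
    have h3 : T.d w ≠ 0 := by intro h; simp [h] at hw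
    have h1' := lt_of_le_of_ne (T.U_nonneg y w) h1.symm
    have h2' := lt_of_le_of_ne (T.U_nonneg w q) h2.symm
    refine ⟨by positivity, le_of_eq ?_⟩
    rw [Real.log_mul h1 h2, Real.log_mul (mul_ne_zero h1 (inv_ne_zero h3)) h2,
      Real.log_mul h1 (inv_ne_zero h3), Real.log_inv]
    ring

theorem stepA2 : T.Lam ≤ T.K2 - T.H2 := by
  have h : ∑ y, ∑ q, ∑ w, T.U y w * (T.d w)⁻¹ * T.U w q * Real.log (T.d w) ≤
      ∑ y, ∑ q, T.M2 y q * (Real.log (T.S2 y q) - Real.log (T.M2 y q)) :=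
    Finset.sum_le_sum fun y _ => Finset.sum_le_sum fun q _ => (T.stepA2_pt y q).1
  have e1 : ∑ y, ∑ q, ∑ w, T.U y w * (T.d w)⁻¹ * T.U w q * Real.log (T.d w) = T.Lam := by
    have : ∀ y, ∑ q, ∑ w, T.U y w * (T.d w)⁻¹ * T.U w q * Real.log (T.d w)
        = ∑ w, T.U y w * Real.log (T.d w) := by
      intro y
      rw [Finset.sum_comm]
      refine Finset.sum_congr rfl fun w _ => ?_
      rw [← Finset.sum_mul, ← Finset.mul_sum]
      congr 1
      exact T.U_mul_inv_mul y w
    simp only [this]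
    rw [Finset.sum_comm]
    unfold Lam
    refine Finset.sum_congr rfl fun w _ => ?_
    rw [← Finset.sum_mul, T.sum_U_left]
  have e2 : ∑ y, ∑ q, T.M2 y q * (Real.log (T.S2 y q) - Real.log (T.M2 y q)) = T.K2 - T.H2 := by
    unfold K2 H2
    simp only [mul_sub, Finset.sum_sub_distrib]
  linarith

theorem stepA3_pt (x q : Ω) :
    ∑ y, T.U x y * (T.d y)⁻¹ * T.M2 y q *
        (Real.log (T.d y) + Real.log (T.S2 y q) - Real.log (T.M2 y q)) ≤
      T.M3 x q * (Real.log (T.S3 x q) - Real.log (T.M3 x q)) ∧ (0 < T.M3 x q → 0 < T.S3 x q) := by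
  refine gibbs (fun y => T.U x y * (T.d y)⁻¹ * T.M2 y q) (fun y => T.U x y * T.S2 y q)
    (fun y => Real.log (T.d y) + Real.log (T.S2 y q) - Real.log (T.M2 y q)) _ _ ?_ ?_ ?_ rfl le_rfl
  · intro w
    have := T.U_nonneg x w; have := T.M2_nonneg w q; have := T.d_nonneg w; positivity
  · intro w
    have := T.U_nonneg x w; have := T.S2_nonneg w q; positivity
  · intro w hw
    have h1 : T.U x w ≠ 0 := by intro h; simp [h] at hw
    have h2 : T.M2 w q ≠ 0 := by intro h; simp [h] at hw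
    have h3 : T.d w ≠ 0 := by intro h; simp [h] at hw
    have h1' := lt_of_le_of_ne (T.U_nonneg x w) h1.symm
    have h2' := lt_of_le_of_ne (T.M2_nonneg w q) h2.symm
    have h4 := (T.stepA2_pt w q).2 h2'
    refine ⟨by positivity, le_of_eq ?_⟩
    rw [Real.log_mul h1 h4.ne', Real.log_mul (mul_ne_zero h1 (inv_ne_zero h3)) h2,
      Real.log_mul h1 (inv_ne_zero h3), Real.log_inv]
    ring

/-- marginalising the first step of the chain -/
theorem marg1 (f : Ω → Ω → ℝ) :
    ∑ x, ∑ q, ∑ y, T.U x y * (T.d y)⁻¹ * T.M2 y q * f y q = ∑ y, ∑ q, T.M2 y q * f y q := by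
  calc ∑ x, ∑ q, ∑ y, T.U x y * (T.d y)⁻¹ * T.M2 y q * f y q
      = ∑ q, ∑ x, ∑ y, T.U x y * (T.d y)⁻¹ * T.M2 y q * f y q := Finset.sum_comm
    _ = ∑ q, ∑ y, ∑ x, T.U x y * (T.d y)⁻¹ * T.M2 y q * f y q :=
        Finset.sum_congr rfl fun q _ => Finset.sum_comm
    _ = ∑ q, ∑ y, T.M2 y q * f y q := by
        refine Finset.sum_congr rfl fun q _ => Finset.sum_congr rfl fun y _ => ?_
        rw [← Finset.sum_mul, ← Finset.sum_mul, ← Finset.sum_mul, T.sum_U_left, T.d_mul_inv_mul]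
    _ = ∑ y, ∑ q, T.M2 y q * f y q := Finset.sum_comm

theorem sum_M2_log_d : ∑ y, ∑ q, T.M2 y q * Real.log (T.d y) = T.Lam := by
  unfold Lam
  refine Finset.sum_congr rfl fun y _ => ?_
  rw [← Finset.sum_mul, T.sum_M2]

theorem stepA3 : 2 * T.Lam ≤ T.K3 - T.H3 := by
  have h : ∑ x, ∑ q, ∑ y, T.U x y * (T.d y)⁻¹ * T.M2 y q *
        (Real.log (T.d y) + Real.log (T.S2 y q) - Real.log (T.M2 y q)) ≤
      ∑ x, ∑ q, T.M3 x q * (Real.log (T.S3 x q) - Real.log (T.M3 x q)) :=
    Finset.sum_le_sum fun y _ => Finset.sum_le_sum fun q _ => (T.stepA3_pt y q).1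
  rw [T.marg1 (fun y q => Real.log (T.d y) + Real.log (T.S2 y q) - Real.log (T.M2 y q))] at h
  have e2 : ∑ y, ∑ q, T.M3 y q * (Real.log (T.S3 y q) - Real.log (T.M3 y q)) = T.K3 - T.H3 := by
    unfold K3 H3
    simp only [mul_sub, Finset.sum_sub_distrib]
  have e1 : ∑ y, ∑ q, T.M2 y q * (Real.log (T.d y) + Real.log (T.S2 y q) - Real.log (T.M2 y q))
      = T.Lam + T.K2 - T.H2 := by
    rw [← T.sum_M2_log_d]
    unfold K2 H2
    simp only [mul_sub, mul_add, Finset.sum_sub_distrib, Finset.sum_add_distrib]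
  have := T.stepA2
  linarith

theorem stepE2 : -T.Lam ≤ T.N * (Real.log (Fintype.card Ω : ℝ) - Real.log T.N) := by
  have h := (gibbs (fun x => T.d x) (fun _ => (1 : ℝ)) (fun x => -Real.log (T.d x)) T.N
    (Fintype.card Ω : ℝ) T.d_nonneg (fun _ => zero_le_one)
    (fun x _ => ⟨one_pos, by simp⟩) rfl (by simp)).1
  unfold Lam
  simpa using h

theorem stepE1 : -T.H3 ≤ T.N * (Real.log ((Fintype.card Ω : ℝ) ^ 2) - Real.log T.N) := by
  have h := (gibbs (fun p : Ω × Ω => T.M3 p.1 p.2) (fun _ => (1 : ℝ))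
    (fun p => -Real.log (T.M3 p.1 p.2)) T.N
    ((Fintype.card Ω : ℝ) ^ 2) (fun p => T.M3_nonneg _ _) (fun _ => zero_le_one)
    (fun x _ => ⟨one_pos, by simp⟩)
    (by rw [Fintype.sum_prod_type]; unfold N; exact Finset.sum_congr rfl fun x _ => T.sum_M3 x)
    (by simp [sq])).1
  unfold H3
  rw [Fintype.sum_prod_type] at h
  simpa using h

end Sym3

end Pool.Agent.P.MP_cfb0df_co
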