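import Mathlib

/-! Sidorenko hypergraphs, expansions, theta graphs. -/

namespace Pool.Agent.P.MP_cfb0df_co.Th

open Classical in
/-- The hypergraph with vertex set `V` and edges `e i` satisfies the Sidorenko inequality against
every `k`-graph `G` on `n ≥ 1` vertices. -/
def Sidorenko (k : ℕ) {V ι : Type} [Fintype V] [Fintype ι] (e : ι → Finset V) : Prop :=
  ∀ n : ℕ, 0 < n → ∀ G : Finset (Finset (Fin n)), (∀ g ∈ G, g.card = k) →
    (((k.factorial * G.card : ℕ) : ℝ) / (n : ℝ) ^ k) ^ Fintype.card ι ≤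
      ((Finset.univ.filter (fun f : V → Fin n => ∀ i, (e i).image f ∈ G)).card : ℝ) /
        (n : ℝ) ^ Fintype.card V

open Classical in
/-- Every edge gets one new vertex of its own. -/
noncomputable def expand {V ι : Type} (e : ι → Finset V) (i : ι) : Finset (V ⊕ ι) :=
  (e i).image Sum.inl ∪ {Sum.inr i}

/-- The `j`-th vertex of the `i`-th path, which has `len i` edges: the two ends are common. -/
def pos (len : Fin 3 → ℕ) (i : Fin 3) (j : ℕ) : Fin 2 ⊕ (Σ i : Fin 3, Fin (len i - 1)) :=
  if j = 0 then Sum.inl 0 else if h : j - 1 < len i - 1 then Sum.inr ⟨i, ⟨j - 1, h⟩⟩ else Sum.inl 1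

/-- The theta graph: three internally disjoint paths of lengths `len 0, len 1, len 2` between two
vertices. -/
def theta (len : Fin 3 → ℕ) (p : Σ i : Fin 3, Fin (len i)) :
    Finset (Fin 2 ⊕ (Σ i : Fin 3, Fin (len i - 1))) :=
  {pos len p.1 p.2, pos len p.1 (p.2 + 1)}

end Pool.Agent.P.MP_cfb0df_co.Th
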