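import Pool.Agent.P.MP_cfb0df_co.GDefs

/-! Entropy estimates for walks in the shadow of a 3-graph. -/

open Finset

namespace Pool.Agent.P.MP_cfb0df_co.Th

/-- log-sum inequality in a flexible form -/
theorem gibbs {ι : Type} [Fintype ι] (A B l : ι → ℝ) (s t : ℝ)
    (hA : ∀ i, 0 ≤ A i) (hB : ∀ i, 0 ≤ B i)
    (h : ∀ i, 0 < A i → 0 < B i ∧ l i ≤ Real.log (B i) - Real.log (A i))
    (hs : ∑ i, A i = s) (ht : ∑ i, B i ≤ t) :
    ∑ i, A i * l i ≤ s * (Real.log t - Real.log s) ∧ (0 < s → 0 < t) := by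
  by_cases h0 : ∃ i, 0 < A i
  · obtain ⟨i0, hi0⟩ := h0
    have hspos : 0 < s := by
      rw [← hs]
      exact lt_of_lt_of_le hi0 (Finset.single_le_sum (fun i _ => hA i) (Finset.mem_univ i0))
    have htpos : 0 < t := by
      refine lt_of_lt_of_le (h i0 hi0).1 (le_trans ?_ ht)
      exact Finset.single_le_sum (fun i _ => hB i) (Finset.mem_univ i0)
    refine ⟨?_, fun _ => htpos⟩
    have key : ∀ i, A i * l i ≤ A i * (Real.log t - Real.log s) + (B i * s / t - A i) := by
      intro i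
      rcases (hA i).eq_or_lt with hi | hi
      · rw [← hi]
        have : 0 ≤ B i * s / t := by have := hB i; positivity
        simp; exact this
      · obtain ⟨hBi, hl⟩ := h i hi
        have h1 : Real.log (B i * s / (A i * t)) ≤ B i * s / (A i * t) - 1 :=
          Real.log_le_sub_one_of_pos (by positivity)
        rw [Real.log_div (by positivity) (by positivity), Real.log_mul hBi.ne' hspos.ne',
          Real.log_mul hi.ne' htpos.ne'] at h1
        have h2 : A i * (B i * s / (A i * t) - 1) = B i * s / t - A i := by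
          field_simp
        have h3 := mul_le_mul_of_nonneg_left h1 hi.le
        have h4 := mul_le_mul_of_nonneg_left hl hi.le
        rw [h2] at h3
        nlinarith
    calc ∑ i, A i * l i ≤ ∑ i, (A i * (Real.log t - Real.log s) + (B i * s / t - A i)) :=
          Finset.sum_le_sum fun i _ => key i
      _ = s * (Real.log t - Real.log s) + ((∑ i, B i) * s / t - s) := by
          rw [Finset.sum_add_distrib, Finset.sum_sub_distrib, ← Finset.sum_mul, hs,
            ← Finset.sum_div, ← Finset.sum_mul]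
      _ ≤ s * (Real.log t - Real.log s) := by
          have : (∑ i, B i) * s / t ≤ s := by
            rw [div_le_iff₀ htpos]; nlinarith
          linarith
  · push Not at h0
    have hz : ∀ i, A i = 0 := fun i => le_antisymm (h0 i) (hA i)
    have : s = 0 := by rw [← hs]; simp [hz]
    simp [hz, this]

variable {Ω : Type} [Fintype Ω]

/-- the data of a symmetric nonnegative function of three variables -/
structure Sym3 (Ω : Type) where
  W : Ω → Ω → Ω → ℝ
  nonneg : ∀ x y z, 0 ≤ W x y z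
  s12 : ∀ x y z, W x y z = W y x z
  s23 : ∀ x y z, W x y z = W x z y

namespace Sym3

variable (T : Sym3 Ω)

noncomputable def U (x y : Ω) : ℝ := ∑ z, T.W x y z
noncomputable def d (x : Ω) : ℝ := ∑ y, T.U x y
noncomputable def N : ℝ := ∑ x, T.d x
noncomputable def M : ℕ → Ω → Ω → ℝ
  | 0 => T.U
  | s + 1 => fun x q => ∑ y, T.U x y * (T.d y)⁻¹ * M s y q
noncomputable def S : ℕ → Ω → Ω → ℝ
  | 0 => T.U
  | s + 1 => fun x q => ∑ y, T.U x y * S s y q
noncomputable def R (σ : ℕ) (v x q : Ω) : ℝ := ∑ y, T.W v x y * (T.d y)⁻¹ * T.M σ y q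

theorem M_succ (s : ℕ) (x q : Ω) : T.M (s + 1) x q = ∑ y, T.U x y * (T.d y)⁻¹ * T.M s y q := rfl
theorem S_succ (s : ℕ) (x q : Ω) : T.S (s + 1) x q = ∑ y, T.U x y * T.S s y q := rfl

theorem U_nonneg (x y : Ω) : 0 ≤ T.U x y := Finset.sum_nonneg fun z _ => T.nonneg x y z
theorem d_nonneg (x : Ω) : 0 ≤ T.d x := Finset.sum_nonneg fun y _ => T.U_nonneg x y
theorem U_symm (x y : Ω) : T.U x y = T.U y x := by
  unfold U; exact Finset.sum_congr rfl fun z _ => T.s12 x y z
theorem M_nonneg (s : ℕ) (x y : Ω) : 0 ≤ T.M s x y := by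
  induction s generalizing x with
  | zero => exact T.U_nonneg x y
  | succ s ih =>
    exact Finset.sum_nonneg fun w _ => by
      have := T.U_nonneg x w; have := ih w; have := T.d_nonneg w; positivity
theorem S_nonneg (s : ℕ) (x y : Ω) : 0 ≤ T.S s x y := by
  induction s generalizing x with
  | zero => exact T.U_nonneg x y
  | succ s ih => exact Finset.sum_nonneg fun w _ => mul_nonneg (T.U_nonneg x w) (ih w)
theorem R_nonneg (σ : ℕ) (v x q : Ω) : 0 ≤ T.R σ v x q := Finset.sum_nonneg fun w _ => by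
  have := T.nonneg v x w; have := T.M_nonneg σ w q; have := T.d_nonneg w; positivity

theorem U_le_d (x y : Ω) : T.U x y ≤ T.d x :=
  Finset.single_le_sum (f := fun y => T.U x y) (fun y _ => T.U_nonneg x y) (Finset.mem_univ y)

theorem sum_U_left (y : Ω) : ∑ x, T.U x y = T.d y := by
  unfold d; exact Finset.sum_congr rfl fun x _ => T.U_symm x y

theorem U_mul_inv_mul (x y : Ω) : T.U x y * (T.d y)⁻¹ * T.d y = T.U x y := by
  rcases (T.d_nonneg y).eq_or_lt with h | h
  · have h1 := T.U_le_d y x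
    have h2 := T.U_nonneg y x
    have : T.U x y = 0 := by rw [T.U_symm]; linarith
    simp [this]
  · field_simp

theorem sum_M (s : ℕ) (y : Ω) : ∑ q, T.M s y q = T.d y := by
  induction s generalizing y with
  | zero => rfl
  | succ s ih =>
    simp only [M_succ]
    rw [Finset.sum_comm]
    refine Finset.sum_congr rfl fun w _ => ?_
    rw [← Finset.mul_sum, ih]
    exact T.U_mul_inv_mul y w

theorem M_le_d (s : ℕ) (y q : Ω) : T.M s y q ≤ T.d y := by
  rw [← T.sum_M s]
  exact Finset.single_le_sum (f := fun q => T.M s y q) (fun q _ => T.M_nonneg s y q)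
    (Finset.mem_univ q)

theorem d_mul_inv_mul (s : ℕ) (y q : Ω) : T.d y * (T.d y)⁻¹ * T.M s y q = T.M s y q := by
  rcases (T.d_nonneg y).eq_or_lt with h | h
  · have h1 := T.M_le_d s y q
    have h2 := T.M_nonneg s y q
    have : T.M s y q = 0 := by linarith
    simp [this]
  · field_simp

theorem sum_M_left (s : ℕ) (q : Ω) : ∑ x, T.M s x q = T.d q := by
  induction s with
  | zero => exact T.sum_U_left q
  | succ s ih =>
    simp only [M_succ]
    rw [Finset.sum_comm, ← ih]
    refine Finset.sum_congr rfl fun w _ => ?_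
    rw [← Finset.sum_mul, ← Finset.sum_mul, T.sum_U_left, T.d_mul_inv_mul]

theorem M_mul_inv_mul (s : ℕ) (x y : Ω) : T.M s x y * (T.d y)⁻¹ * T.d y = T.M s x y := by
  rcases (T.d_nonneg y).eq_or_lt with h | h
  · have h1 : T.M s x y ≤ T.d y := by
      rw [← T.sum_M_left s]
      exact Finset.single_le_sum (f := fun x => T.M s x y) (fun x _ => T.M_nonneg s x y)
        (Finset.mem_univ x)
    have h2 := T.M_nonneg s x y
    have : T.M s x y = 0 := by linarith
    simp [this]
  · field_simp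

theorem M_add (a b : ℕ) (v q : Ω) :
    ∑ y, T.M a v y * (T.d y)⁻¹ * T.M b y q = T.M (b + a + 1) v q := by
  induction a generalizing v with
  | zero => rfl
  | succ a ih =>
    rw [show b + (a + 1) + 1 = (b + a + 1) + 1 by ring, M_succ]
    simp only [← ih, M_succ T a, Finset.sum_mul, Finset.mul_sum]
    rw [Finset.sum_comm]
    exact Finset.sum_congr rfl fun z _ => Finset.sum_congr rfl fun y _ => by ring

theorem S_add (a b : ℕ) (v q : Ω) : ∑ y, T.S a v y * T.S b y q = T.S (b + a + 1) v q := by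
  induction a generalizing v with
  | zero => rfl
  | succ a ih =>
    rw [show b + (a + 1) + 1 = (b + a + 1) + 1 by ring, S_succ]
    simp only [← ih, S_succ T a, Finset.sum_mul, Finset.mul_sum]
    rw [Finset.sum_comm]
    exact Finset.sum_congr rfl fun z _ => Finset.sum_congr rfl fun y _ => by ring

theorem S_symm (a : ℕ) (v q : Ω) : T.S a v q = T.S a q v := by
  induction a generalizing v with
  | zero => exact T.U_symm v q
  | succ a ih =>
    have h := T.S_add a 0 q v
    rw [zero_add] at h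
    rw [← h, S_succ]
    exact Finset.sum_congr rfl fun y _ => by rw [ih, mul_comm, T.U_symm]; rfl

theorem sum_R_mid (σ : ℕ) (v q : Ω) : ∑ x, T.R σ v x q = T.M (σ + 1) v q := by
  unfold R
  rw [M_succ, Finset.sum_comm]
  refine Finset.sum_congr rfl fun y _ => ?_
  rw [← Finset.sum_mul, ← Finset.sum_mul]
  congr 2
  unfold U
  exact Finset.sum_congr rfl fun x _ => T.s23 v x y

theorem R_symm (σ : ℕ) (v x q : Ω) : T.R σ v x q = T.R σ x v q := by
  unfold R; exact Finset.sum_congr rfl fun y _ => by rw [T.s12]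

theorem R_le_M (σ : ℕ) (v x q : Ω) : T.R σ v x q ≤ T.M (σ + 1) v q := by
  rw [← T.sum_R_mid]
  exact Finset.single_le_sum (f := fun x => T.R σ v x q) (fun x _ => T.R_nonneg σ v x q)
    (Finset.mem_univ x)

noncomputable def Lam : ℝ := ∑ x, T.d x * Real.log (T.d x)
noncomputable def H (s : ℕ) : ℝ := ∑ y, ∑ q, T.M s y q * Real.log (T.M s y q)
noncomputable def K (s : ℕ) : ℝ := ∑ y, ∑ q, T.M s y q * Real.log (T.S s y q)

theorem S_pos (s : ℕ) (x q : Ω) (h : 0 < T.M s x q) : 0 < T.S s x q := by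
  induction s generalizing x with
  | zero => exact h
  | succ s ih =>
    obtain ⟨w, -, hw⟩ := Finset.exists_ne_zero_of_sum_ne_zero (T.M_succ s x q ▸ h.ne')
    have h1 : T.U x w ≠ 0 := by intro h; simp [h] at hw
    have h2 : T.M s w q ≠ 0 := by intro h; simp [h] at hw
    refine lt_of_lt_of_le (mul_pos (lt_of_le_of_ne (T.U_nonneg x w) h1.symm)
      (ih w (lt_of_le_of_ne (T.M_nonneg s w q) h2.symm))) ?_
    exact Finset.single_le_sum (f := fun y => T.U x y * T.S s y q)
      (fun y _ => mul_nonneg (T.U_nonneg x y) (T.S_nonneg s y q)) (Finset.mem_univ w)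

theorem stepA_pt (s : ℕ) (x q : Ω) :
    ∑ y, T.U x y * (T.d y)⁻¹ * T.M s y q *
        (Real.log (T.d y) + Real.log (T.S s y q) - Real.log (T.M s y q)) ≤
      T.M (s + 1) x q * (Real.log (T.S (s + 1) x q) - Real.log (T.M (s + 1) x q)) ∧ (0 < T.M (s + 1) x q → 0 < T.S (s + 1) x q) := by
  refine gibbs (fun y => T.U x y * (T.d y)⁻¹ * T.M s y q) (fun y => T.U x y * T.S s y q)
    (fun y => Real.log (T.d y) + Real.log (T.S s y q) - Real.log (T.M s y q)) _ _ ?_ ?_ ?_ rfl le_rfl
  · intro w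
    have := T.U_nonneg x w; have := T.M_nonneg s w q; have := T.d_nonneg w; positivity
  · intro w
    have := T.U_nonneg x w; have := T.S_nonneg s w q; positivity
  · intro w hw
    have h1 : T.U x w ≠ 0 := by intro h; simp [h] at hw
    have h2 : T.M s w q ≠ 0 := by intro h; simp [h] at hw
    have h3 : T.d w ≠ 0 := by intro h; simp [h] at hw
    have h1' := lt_of_le_of_ne (T.U_nonneg x w) h1.symm
    have h2' := lt_of_le_of_ne (T.M_nonneg s w q) h2.symm
    have h4 := T.S_pos s w q h2'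
    refine ⟨by positivity, le_of_eq ?_⟩
    rw [Real.log_mul h1 h4.ne', Real.log_mul (mul_ne_zero h1 (inv_ne_zero h3)) h2,
      Real.log_mul h1 (inv_ne_zero h3), Real.log_inv]
    ring

/-- marginalising the first step of the chain -/
theorem marg1 (s : ℕ) (f : Ω → Ω → ℝ) :
    ∑ x, ∑ q, ∑ y, T.U x y * (T.d y)⁻¹ * T.M s y q * f y q = ∑ y, ∑ q, T.M s y q * f y q := by
  calc ∑ x, ∑ q, ∑ y, T.U x y * (T.d y)⁻¹ * T.M s y q * f y q
      = ∑ q, ∑ x, ∑ y, T.U x y * (T.d y)⁻¹ * T.M s y q * f y q := Finset.sum_comm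
    _ = ∑ q, ∑ y, ∑ x, T.U x y * (T.d y)⁻¹ * T.M s y q * f y q :=
        Finset.sum_congr rfl fun q _ => Finset.sum_comm
    _ = ∑ q, ∑ y, T.M s y q * f y q := by
        refine Finset.sum_congr rfl fun q _ => Finset.sum_congr rfl fun y _ => ?_
        rw [← Finset.sum_mul, ← Finset.sum_mul, ← Finset.sum_mul, T.sum_U_left, T.d_mul_inv_mul]
    _ = ∑ y, ∑ q, T.M s y q * f y q := Finset.sum_comm

theorem sum_M_log_d (s : ℕ) : ∑ y, ∑ q, T.M s y q * Real.log (T.d y) = T.Lam := by
  unfold Lam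
  refine Finset.sum_congr rfl fun y _ => ?_
  rw [← Finset.sum_mul, T.sum_M]

theorem stepA1 (s : ℕ) : T.Lam + T.K s - T.H s ≤ T.K (s + 1) - T.H (s + 1) := by
  have h : ∑ x, ∑ q, ∑ y, T.U x y * (T.d y)⁻¹ * T.M s y q *
        (Real.log (T.d y) + Real.log (T.S s y q) - Real.log (T.M s y q)) ≤
      ∑ x, ∑ q, T.M (s + 1) x q * (Real.log (T.S (s + 1) x q) - Real.log (T.M (s + 1) x q)) :=
    Finset.sum_le_sum fun y _ => Finset.sum_le_sum fun q _ => (T.stepA_pt s y q).1
  rw [T.marg1 s (fun y q => Real.log (T.d y) + Real.log (T.S s y q) - Real.log (T.M s y q))] at h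
  have e2 : ∑ y, ∑ q, T.M (s + 1) y q * (Real.log (T.S (s + 1) y q) - Real.log (T.M (s + 1) y q)) = T.K (s + 1) - T.H (s + 1) := by
    unfold K H
    simp only [mul_sub, Finset.sum_sub_distrib]
  have e1 : ∑ y, ∑ q, T.M s y q * (Real.log (T.d y) + Real.log (T.S s y q) - Real.log (T.M s y q))
      = T.Lam + T.K s - T.H s := by
    rw [← T.sum_M_log_d s]
    unfold K H
    simp only [mul_sub, mul_add, Finset.sum_sub_distrib, Finset.sum_add_distrib]
  linarith

theorem stepA (s : ℕ) : s * T.Lam ≤ T.K s - T.H s := by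
  induction s with
  | zero => simp [K, H, M, S]
  | succ s ih => have := T.stepA1 s; push_cast; linarith

theorem stepH1 (s : ℕ) : T.H (s + 1) ≤ T.H s := by
  have h : ∑ x, ∑ q, ∑ y, T.U x y * (T.d y)⁻¹ * T.M s y q *
        (Real.log (T.d y) - Real.log (T.M s y q)) ≤
      ∑ x, ∑ q, T.M (s + 1) x q * (Real.log (T.d x) - Real.log (T.M (s + 1) x q)) := by
    refine Finset.sum_le_sum fun x _ => Finset.sum_le_sum fun q _ => ?_
    refine (gibbs (fun y => T.U x y * (T.d y)⁻¹ * T.M s y q) (fun y => T.U x y)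
      (fun y => Real.log (T.d y) - Real.log (T.M s y q)) _ _ ?_ (T.U_nonneg x) ?_ rfl le_rfl).1
    · intro w
      have := T.U_nonneg x w; have := T.M_nonneg s w q; have := T.d_nonneg w; positivity
    · intro w hw
      have h1 : T.U x w ≠ 0 := by intro h; simp [h] at hw
      have h2 : T.M s w q ≠ 0 := by intro h; simp [h] at hw
      have h3 : T.d w ≠ 0 := by intro h; simp [h] at hw
      refine ⟨lt_of_le_of_ne (T.U_nonneg x w) h1.symm, le_of_eq ?_⟩
      rw [Real.log_mul (mul_ne_zero h1 (inv_ne_zero h3)) h2,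
        Real.log_mul h1 (inv_ne_zero h3), Real.log_inv]
      ring
  rw [T.marg1 s (fun y q => Real.log (T.d y) - Real.log (T.M s y q))] at h
  simp only [mul_sub, Finset.sum_sub_distrib, T.sum_M_log_d] at h
  unfold H
  linarith

theorem stepH (s t : ℕ) : T.H (s + t) ≤ T.H s := by
  induction t with
  | zero => exact le_rfl
  | succ t ih => exact (T.stepH1 (s + t)).trans ih

theorem stepE2 : -T.Lam ≤ T.N * (Real.log (Fintype.card Ω : ℝ) - Real.log T.N) := by
  have h := (gibbs (fun x => T.d x) (fun _ => (1 : ℝ)) (fun x => -Real.log (T.d x)) T.N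
    (Fintype.card Ω : ℝ) T.d_nonneg (fun _ => zero_le_one)
    (fun x _ => ⟨one_pos, by simp⟩) rfl (by simp)).1
  unfold Lam
  simpa using h

theorem stepE1 (s : ℕ) : -T.H (s + 1) ≤ T.N * (Real.log ((Fintype.card Ω : ℝ) ^ 2) - Real.log T.N) := by
  have h := (gibbs (fun p : Ω × Ω => T.M (s + 1) p.1 p.2) (fun _ => (1 : ℝ))
    (fun p => -Real.log (T.M (s + 1) p.1 p.2)) T.N
    ((Fintype.card Ω : ℝ) ^ 2) (fun p => T.M_nonneg (s + 1) _ _) (fun _ => zero_le_one)
    (fun x _ => ⟨one_pos, by simp⟩)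
    (by rw [Fintype.sum_prod_type]; unfold N; exact Finset.sum_congr rfl fun x _ => T.sum_M (s + 1) x)
    (by simp [sq])).1
  unfold H
  rw [Fintype.sum_prod_type] at h
  simpa using h

noncomputable def G1 (s : ℕ) : ℝ :=
  ∑ v, ∑ x, ∑ q, T.R s v x q * (Real.log (T.U v x) - Real.log (T.R s v x q))

theorem W_le_U (v x y : Ω) : T.W v x y ≤ T.U v x :=
  Finset.single_le_sum (f := fun y => T.W v x y) (fun y _ => T.nonneg v x y) (Finset.mem_univ y)

theorem sum_R_all (s : ℕ) : ∑ v, ∑ x, ∑ q, T.R s v x q = T.N := by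
  unfold N
  refine Finset.sum_congr rfl fun v _ => ?_
  rw [Finset.sum_comm, ← T.sum_M (s + 1)]
  exact Finset.sum_congr rfl fun q _ => T.sum_R_mid s v q

/-- marginal of the law of `(v, x, y, q)` on `(y, q)` -/
theorem margD (s : ℕ) (f : Ω → Ω → ℝ) :
    ∑ v, ∑ x, ∑ q, ∑ y, T.W v x y * (T.d y)⁻¹ * T.M s y q * f y q = ∑ y, ∑ q, T.M s y q * f y q := by
  rw [← T.marg1 s f]
  refine Finset.sum_congr rfl fun v _ => ?_
  rw [Finset.sum_comm]
  refine Finset.sum_congr rfl fun q _ => ?_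
  rw [Finset.sum_comm]
  refine Finset.sum_congr rfl fun y _ => ?_
  rw [← Finset.sum_mul, ← Finset.sum_mul, ← Finset.sum_mul]
  congr 3
  unfold U
  exact Finset.sum_congr rfl fun x _ => T.s23 v x y

theorem stepD (s : ℕ) : T.Lam - T.H s ≤ T.G1 s := by
  have h := (gibbs (fun p : Ω × Ω × Ω × Ω => T.W p.1 p.2.1 p.2.2.2 * (T.d p.2.2.2)⁻¹ * T.M s p.2.2.2 p.2.2.1)
    (fun p => T.W p.1 p.2.1 p.2.2.2 * (T.U p.1 p.2.1)⁻¹ * T.R s p.1 p.2.1 p.2.2.1)
    (fun p => (Real.log (T.d p.2.2.2) - Real.log (T.M s p.2.2.2 p.2.2.1)) -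
      (Real.log (T.U p.1 p.2.1) - Real.log (T.R s p.1 p.2.1 p.2.2.1))) T.N T.N ?_ ?_ ?_ ?_ ?_).1
  · simp only [Fintype.sum_prod_type, sub_self, mul_zero] at h
    have e1 : ∑ v, ∑ x, ∑ q, ∑ y, T.W v x y * (T.d y)⁻¹ * T.M s y q *
        (Real.log (T.d y) - Real.log (T.M s y q)) = T.Lam - T.H s := by
      rw [T.margD s (fun y q => Real.log (T.d y) - Real.log (T.M s y q)), ← T.sum_M_log_d s]
      unfold H
      simp only [mul_sub, Finset.sum_sub_distrib]
    have e2 : ∑ v, ∑ x, ∑ q, ∑ y, T.W v x y * (T.d y)⁻¹ * T.M s y q *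
        (Real.log (T.U v x) - Real.log (T.R s v x q)) = T.G1 s := by
      unfold G1
      refine Finset.sum_congr rfl fun v _ => Finset.sum_congr rfl fun x _ =>
        Finset.sum_congr rfl fun q _ => ?_
      rw [← Finset.sum_mul]
      rfl
    rw [← e1, ← e2]
    simp only [mul_sub (_ * _ * _) (_ - _) (_ - _), Finset.sum_sub_distrib] at h
    linarith
  · rintro ⟨v, x, q, y⟩
    have := T.nonneg v x y; have := T.M_nonneg s y q; have := T.d_nonneg y
    positivity
  · rintro ⟨v, x, q, y⟩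
    have := T.nonneg v x y; have := T.R_nonneg s v x q; have := T.U_nonneg v x
    positivity
  · rintro ⟨v, x, q, y⟩ hw
    simp only at hw ⊢
    have h1 : T.W v x y ≠ 0 := by intro h; simp [h] at hw
    have h2 : T.M s y q ≠ 0 := by intro h; simp [h] at hw
    have h3 : T.d y ≠ 0 := by intro h; simp [h] at hw
    have h1' := lt_of_le_of_ne (T.nonneg v x y) h1.symm
    have h4 : 0 < T.U v x := lt_of_lt_of_le h1' (T.W_le_U v x y)
    have h5 : 0 < T.R s v x q := lt_of_lt_of_le hw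
      (Finset.single_le_sum (f := fun y => T.W v x y * (T.d y)⁻¹ * T.M s y q) (fun y _ => by
        have := T.nonneg v x y; have := T.M_nonneg s y q; have := T.d_nonneg y
        positivity) (Finset.mem_univ y))
    refine ⟨by positivity, le_of_eq ?_⟩
    rw [Real.log_mul (mul_ne_zero h1 (inv_ne_zero h4.ne')) h5.ne',
      Real.log_mul h1 (inv_ne_zero h4.ne'),
      Real.log_mul (mul_ne_zero h1 (inv_ne_zero h3)) h2,
      Real.log_mul h1 (inv_ne_zero h3), Real.log_inv, Real.log_inv]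
    ring
  · simp only [Fintype.sum_prod_type]
    exact T.sum_R_all s
  · simp only [Fintype.sum_prod_type]
    rw [← T.sum_R_all s]
    refine Finset.sum_le_sum fun v _ => Finset.sum_le_sum fun x _ =>
      Finset.sum_le_sum fun q _ => ?_
    rw [← Finset.sum_mul, ← Finset.sum_mul]
    have h1 : (∑ y, T.W v x y) * (T.U v x)⁻¹ ≤ 1 := mul_inv_le_one
    have := T.R_nonneg s v x q
    nlinarith

theorem margR1 (s : ℕ) (f : Ω → Ω → ℝ) :
    ∑ v, ∑ x, ∑ q, T.R s v x q * f v q = ∑ v, ∑ q, T.M (s + 1) v q * f v q := by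
  refine Finset.sum_congr rfl fun v _ => ?_
  rw [Finset.sum_comm]
  refine Finset.sum_congr rfl fun q _ => ?_
  rw [← Finset.sum_mul, T.sum_R_mid s]

theorem margR2 (s : ℕ) (f : Ω → Ω → ℝ) :
    ∑ v, ∑ x, ∑ q, T.R s v x q * f x q = ∑ v, ∑ q, T.M (s + 1) v q * f v q := by
  rw [Finset.sum_comm, ← T.margR1 s f]
  refine Finset.sum_congr rfl fun v _ => Finset.sum_congr rfl fun x _ =>
    Finset.sum_congr rfl fun q _ => ?_
  rw [T.R_symm]

noncomputable def hom (γ α : ℕ) : ℝ :=
  ∑ y, ∑ q, ∑ v, ∑ x, T.S γ y q * T.S γ y q * T.S α v y * T.U v x * T.S (γ + α + 1) x q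

noncomputable def rho (γ α : ℕ) (y q v x : Ω) : ℝ :=
  T.M α v y * (T.d y)⁻¹ * T.M γ y q * ((T.M (γ + α + 1) v q)⁻¹ * T.R (γ + α) v x q)

theorem rho_sum_x (γ α : ℕ) (y q v : Ω) :
    ∑ x, T.rho γ α y q v x = T.M α v y * (T.d y)⁻¹ * T.M γ y q := by
  unfold rho
  rw [← Finset.mul_sum, ← Finset.mul_sum, T.sum_R_mid]
  have h0 : ∀ y, 0 ≤ T.M α v y * (T.d y)⁻¹ * T.M γ y q := fun y => by
    have := T.M_nonneg α v y; have := T.M_nonneg γ y q; have := T.d_nonneg y
    positivity
  rcases (T.M_nonneg (γ + α + 1) v q).eq_or_lt with h | h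
  · have h1 := Finset.single_le_sum (f := fun y => T.M α v y * (T.d y)⁻¹ * T.M γ y q)
      (fun y _ => h0 y) (Finset.mem_univ y)
    rw [T.M_add] at h1
    have : T.M α v y * (T.d y)⁻¹ * T.M γ y q = 0 := by linarith [h0 y]
    rw [this]; simp
  · rw [inv_mul_cancel₀ h.ne', mul_one]

theorem rho_sum_y (γ α : ℕ) (q v x : Ω) : ∑ y, T.rho γ α y q v x = T.R (γ + α) v x q := by
  unfold rho
  rw [← Finset.sum_mul, T.M_add]
  rcases (T.M_nonneg (γ + α + 1) v q).eq_or_lt with h | h
  · have h1 := T.R_le_M (γ + α) v x q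
    have h2 := T.R_nonneg (γ + α) v x q
    have : T.R (γ + α) v x q = 0 := by linarith
    rw [this]; simp
  · field_simp

theorem margC1 (γ α : ℕ) (f : Ω → Ω → ℝ) :
    ∑ y, ∑ q, ∑ v, ∑ x, T.rho γ α y q v x * f y q = ∑ y, ∑ q, T.M γ y q * f y q := by
  refine Finset.sum_congr rfl fun y _ => Finset.sum_congr rfl fun q _ => ?_
  simp only [← Finset.sum_mul, T.rho_sum_x]
  rw [T.sum_M_left, T.d_mul_inv_mul]

theorem margC3 (γ α : ℕ) (f : Ω → Ω → ℝ) :
    ∑ y, ∑ q, ∑ v, ∑ x, T.rho γ α y q v x * f v y = ∑ v, ∑ y, T.M α v y * f v y := by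
  rw [Finset.sum_comm (f := fun v y => T.M α v y * f v y)]
  refine Finset.sum_congr rfl fun y _ => ?_
  rw [Finset.sum_comm]
  refine Finset.sum_congr rfl fun v _ => ?_
  simp only [← Finset.sum_mul, T.rho_sum_x]
  rw [← Finset.mul_sum, T.sum_M, T.M_mul_inv_mul]

theorem margC2 (γ α : ℕ) (g : Ω → Ω → Ω → ℝ) :
    ∑ y, ∑ q, ∑ v, ∑ x, T.rho γ α y q v x * g v x q = ∑ v, ∑ x, ∑ q, T.R (γ + α) v x q * g v x q := by
  calc ∑ y, ∑ q, ∑ v, ∑ x, T.rho γ α y q v x * g v x q
      = ∑ q, ∑ y, ∑ v, ∑ x, T.rho γ α y q v x * g v x q := Finset.sum_comm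
    _ = ∑ q, ∑ v, ∑ y, ∑ x, T.rho γ α y q v x * g v x q :=
        Finset.sum_congr rfl fun q _ => Finset.sum_comm
    _ = ∑ q, ∑ v, ∑ x, ∑ y, T.rho γ α y q v x * g v x q :=
        Finset.sum_congr rfl fun q _ => Finset.sum_congr rfl fun v _ => Finset.sum_comm
    _ = ∑ q, ∑ v, ∑ x, T.R (γ + α) v x q * g v x q := by
        simp only [← Finset.sum_mul, T.rho_sum_y]
    _ = ∑ v, ∑ q, ∑ x, T.R (γ + α) v x q * g v x q := Finset.sum_comm
    _ = ∑ v, ∑ x, ∑ q, T.R (γ + α) v x q * g v x q :=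
        Finset.sum_congr rfl fun v _ => Finset.sum_comm

theorem stepC (γ α : ℕ) : 2 * T.K γ - T.H γ + T.Lam + (T.K α - T.H α) +
    (T.G1 (γ + α) + T.K (γ + α + 1) + T.H (γ + α + 1)) ≤
    T.N * (Real.log (T.hom γ α) - Real.log T.N) ∧ (0 < T.N → 0 < T.hom γ α) := by
  have h := (gibbs (fun p : Ω × Ω × Ω × Ω => T.rho γ α p.1 p.2.1 p.2.2.1 p.2.2.2)
    (fun p => T.S γ p.1 p.2.1 * T.S γ p.1 p.2.1 * T.S α p.2.2.1 p.1 * T.U p.2.2.1 p.2.2.2 *
      T.S (γ + α + 1) p.2.2.2 p.2.1)
    (fun p => (2 * Real.log (T.S γ p.1 p.2.1) - Real.log (T.M γ p.1 p.2.1) + Real.log (T.d p.1)) +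
      (Real.log (T.S α p.2.2.1 p.1) - Real.log (T.M α p.2.2.1 p.1)) +
      ((Real.log (T.U p.2.2.1 p.2.2.2) - Real.log (T.R (γ + α) p.2.2.1 p.2.2.2 p.2.1)) +
        Real.log (T.S (γ + α + 1) p.2.2.2 p.2.1) + Real.log (T.M (γ + α + 1) p.2.2.1 p.2.1)))
    T.N (T.hom γ α) ?_ ?_ ?_ ?_ ?_)
  · refine ⟨?_, h.2⟩
    have h1 := h.1
    simp only [Fintype.sum_prod_type] at h1
    have e1 : ∑ y, ∑ q, ∑ v, ∑ x, T.rho γ α y q v x *
        (2 * Real.log (T.S γ y q) - Real.log (T.M γ y q) + Real.log (T.d y))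
        = 2 * T.K γ - T.H γ + T.Lam := by
      rw [T.margC1 γ α
        (fun y q => 2 * Real.log (T.S γ y q) - Real.log (T.M γ y q) + Real.log (T.d y)),
        ← T.sum_M_log_d γ]
      unfold K H
      simp only [Finset.mul_sum, ← Finset.sum_sub_distrib, ← Finset.sum_add_distrib]
      refine Finset.sum_congr rfl fun y _ => Finset.sum_congr rfl fun q _ => ?_
      ring
    have e3 : ∑ y, ∑ q, ∑ v, ∑ x, T.rho γ α y q v x *
        (Real.log (T.S α v y) - Real.log (T.M α v y)) = T.K α - T.H α := by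
      rw [T.margC3 γ α (fun v y => Real.log (T.S α v y) - Real.log (T.M α v y))]
      unfold K H
      simp only [mul_sub, Finset.sum_sub_distrib]
    have e2 : ∑ y, ∑ q, ∑ v, ∑ x, T.rho γ α y q v x *
        ((Real.log (T.U v x) - Real.log (T.R (γ + α) v x q)) +
          Real.log (T.S (γ + α + 1) x q) + Real.log (T.M (γ + α + 1) v q)) =
        T.G1 (γ + α) + T.K (γ + α + 1) + T.H (γ + α + 1) := by
      rw [T.margC2 γ α (fun v x q => (Real.log (T.U v x) - Real.log (T.R (γ + α) v x q)) +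
          Real.log (T.S (γ + α + 1) x q) + Real.log (T.M (γ + α + 1) v q))]
      unfold G1 K H
      rw [← T.margR2 (γ + α) (fun x q => Real.log (T.S (γ + α + 1) x q)),
        ← T.margR1 (γ + α) (fun x q => Real.log (T.M (γ + α + 1) x q))]
      simp only [← Finset.sum_add_distrib]
      refine Finset.sum_congr rfl fun v _ => Finset.sum_congr rfl fun x _ =>
        Finset.sum_congr rfl fun q _ => ?_
      ring
    simp only [mul_add (T.rho _ _ _ _ _ _) (_ + _ + _) (_ + _ + _),
      mul_add (T.rho _ _ _ _ _ _) (_ - _ + _) (_ - _), Finset.sum_add_distrib] at h1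
    rw [e1, e2, e3] at h1
    linarith
  · rintro ⟨y, q, v, x⟩
    have := T.M_nonneg α v y; have := T.M_nonneg γ y q; have := T.d_nonneg y
    have := T.M_nonneg (γ + α + 1) v q; have := T.R_nonneg (γ + α) v x q
    unfold rho
    positivity
  · rintro ⟨y, q, v, x⟩
    have := T.S_nonneg α v y; have := T.S_nonneg γ y q; have := T.U_nonneg v x
    have := T.S_nonneg (γ + α + 1) x q
    positivity
  · rintro ⟨y, q, v, x⟩ hw
    simp only [rho] at hw ⊢
    have h1 : T.M α v y ≠ 0 := by intro h; simp [h] at hw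
    have h2 : T.M γ y q ≠ 0 := by intro h; simp [h] at hw
    have h3 : T.d y ≠ 0 := by intro h; simp [h] at hw
    have h4 : T.M (γ + α + 1) v q ≠ 0 := by intro h; simp [h] at hw
    have h5 : T.R (γ + α) v x q ≠ 0 := by intro h; simp [h] at hw
    have h1' := T.S_pos α v y (lt_of_le_of_ne (T.M_nonneg α v y) h1.symm)
    have h5' := lt_of_le_of_ne (T.R_nonneg (γ + α) v x q) h5.symm
    have h6 := T.S_pos γ y q (lt_of_le_of_ne (T.M_nonneg γ y q) h2.symm)
    have h7 : 0 < T.S (γ + α + 1) x q := by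
      refine T.S_pos _ x q (lt_of_lt_of_le h5' ?_)
      rw [T.R_symm]; exact T.R_le_M _ x v q
    have h8 : 0 < T.U v x := by
      rcases (T.U_nonneg v x).eq_or_lt with h | h
      · exfalso
        apply h5
        unfold R
        refine Finset.sum_eq_zero fun z _ => ?_
        have a1 := T.W_le_U v x z
        have a2 := T.nonneg v x z
        have : T.W v x z = 0 := by linarith
        simp [this]
      · exact h
    refine ⟨by positivity, le_of_eq ?_⟩
    rw [Real.log_mul (by positivity) h7.ne', Real.log_mul (by positivity) h8.ne',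
      Real.log_mul (by positivity) h1'.ne', Real.log_mul h6.ne' h6.ne',
      Real.log_mul (mul_ne_zero (mul_ne_zero h1 (inv_ne_zero h3)) h2)
        (mul_ne_zero (inv_ne_zero h4) h5),
      Real.log_mul (mul_ne_zero h1 (inv_ne_zero h3)) h2, Real.log_mul h1 (inv_ne_zero h3),
      Real.log_mul (inv_ne_zero h4) h5, Real.log_inv, Real.log_inv]
    ring
  · simp only [Fintype.sum_prod_type]
    have := T.margC1 γ α (fun _ _ => 1)
    simp only [mul_one] at this
    rw [this]
    unfold N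
    exact Finset.sum_congr rfl fun y _ => T.sum_M γ y
  · simp only [Fintype.sum_prod_type]
    exact le_rfl

theorem hom_eq (γ α : ℕ) :
    T.hom γ α = ∑ y, ∑ q, T.S γ y q * T.S γ y q * T.S (γ + 2 * α + 3) y q := by
  refine Finset.sum_congr rfl fun y _ => Finset.sum_congr rfl fun q _ => ?_
  rw [show γ + 2 * α + 3 = (γ + α + 1 + 1) + α + 1 by ring, ← T.S_add, Finset.mul_sum]
  refine Finset.sum_congr rfl fun v _ => ?_
  rw [S_succ T (γ + α + 1) v q, T.S_symm α y v, Finset.mul_sum, Finset.mul_sum]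
  exact Finset.sum_congr rfl fun x _ => by ring

theorem N_nonneg : 0 ≤ T.N := Finset.sum_nonneg fun x _ => T.d_nonneg x

theorem main_ineq (γ α : ℕ) (hn : 0 < Fintype.card Ω) :
    T.N ^ (3 * γ + 2 * α + 6) ≤ (∑ y, ∑ q, T.S γ y q * T.S γ y q * T.S (γ + 2 * α + 3) y q) *
      (Fintype.card Ω : ℝ) ^ (3 * γ + 2 * α + 7) := by
  have hn' : (0 : ℝ) < Fintype.card Ω := by exact_mod_cast hn
  rcases T.N_nonneg.eq_or_lt with h | h
  · rw [← h, zero_pow (by omega)]
    exact mul_nonneg (Finset.sum_nonneg fun y _ => Finset.sum_nonneg fun q _ => mul_nonneg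
      (mul_self_nonneg _) (T.S_nonneg _ y q)) (by positivity)
  · rw [← T.hom_eq]
    obtain ⟨c1, c2⟩ := T.stepC γ α
    have hh := c2 h
    have a1 := T.stepA γ
    have a2 := T.stepA α
    have a3 := T.stepA (γ + α + 1)
    have d1 := T.stepD (γ + α)
    have d2 := T.stepH γ α
    have e1 := T.stepE1 (γ + α)
    have e2 := mul_le_mul_of_nonneg_left T.stepE2
      (show (0 : ℝ) ≤ 3 * γ + 2 * α + 3 by positivity)
    rw [Real.log_pow] at e1
    have key : T.N * ((3 * γ + 2 * α + 6) * Real.log T.N) ≤ T.N * (Real.log (T.hom γ α) +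
        (3 * γ + 2 * α + 7) * Real.log (Fintype.card Ω : ℝ)) := by
      push_cast at e1 a3
      linarith
    have key2 := le_of_mul_le_mul_left key h
    rw [← Real.log_le_log_iff (by positivity) (by positivity), Real.log_mul hh.ne' (by positivity),
      Real.log_pow, Real.log_pow]
    push_cast
    exact key2

end Sym3

theorem sum_fun_succ {Ω : Type} [Fintype Ω] {k : ℕ} (F : (Fin (k + 1) → Ω) → ℝ) :
    ∑ g, F g = ∑ x, ∑ g : Fin k → Ω, F (Fin.cons x g) := by
  rw [← Fintype.sum_prod_type']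
  exact (Fintype.sum_equiv (Fin.consEquiv fun _ => Ω) _ _ (fun _ => rfl)).symm

/-- the indicator of a 3-graph -/
noncomputable def ind {n : ℕ} (G : Finset (Finset (Fin n))) : Sym3 (Fin n) where
  W x y z := if ({x, y, z} : Finset (Fin n)) ∈ G then 1 else 0
  nonneg x y z := by split_ifs <;> norm_num
  s12 x y z := by rw [Finset.insert_comm]
  s23 x y z := by rw [Finset.pair_comm y z]

theorem N_ge {n : ℕ} (G : Finset (Finset (Fin n))) (hG : ∀ g ∈ G, g.card = 3) :
    ((6 * G.card : ℕ) : ℝ) ≤ (ind G).N := by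
  have e : (ind G).N = ∑ g ∈ G, ∑ p : Fin n × Fin n × Fin n,
      if ({p.1, p.2.1, p.2.2} : Finset (Fin n)) = g then (1 : ℝ) else 0 := by
    rw [Finset.sum_comm]
    simp only [Finset.sum_ite_eq, Fintype.sum_prod_type]
    rfl
  rw [e]
  have : ((6 * G.card : ℕ) : ℝ) = ∑ g ∈ G, (6 : ℝ) := by simp [mul_comm]
  rw [this]
  refine Finset.sum_le_sum fun g hg => ?_
  obtain ⟨a, b, c, hab, hac, hbc, rfl⟩ := Finset.card_eq_three.1 (hG g hg)
  rw [Finset.sum_boole]
  have hsub : ({(a, b, c), (a, c, b), (b, a, c), (b, c, a), (c, a, b), (c, b, a)} :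
      Finset (Fin n × Fin n × Fin n)) ⊆
      Finset.univ.filter (fun p : Fin n × Fin n × Fin n =>
        ({p.1, p.2.1, p.2.2} : Finset (Fin n)) = {a, b, c}) := by
    intro p hp
    simp only [Finset.mem_insert, Finset.mem_singleton] at hp
    simp only [Finset.mem_filter, Finset.mem_univ, true_and]
    rcases hp with rfl | rfl | rfl | rfl | rfl | rfl <;> ext t <;> simp <;> tauto
  have hc : ({(a, b, c), (a, c, b), (b, a, c), (b, c, a), (c, a, b), (c, b, a)} :
      Finset (Fin n × Fin n × Fin n)).card = 6 := by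
    have hba := hab.symm
    have hca := hac.symm
    have hcb := hbc.symm
    rw [Finset.card_insert_of_notMem, Finset.card_insert_of_notMem, Finset.card_insert_of_notMem,
      Finset.card_insert_of_notMem, Finset.card_insert_of_notMem, Finset.card_singleton] <;>
      simp [*]
  have := Finset.card_le_card hsub
  rw [hc] at this
  exact_mod_cast this

end Pool.Agent.P.MP_cfb0df_co.Th
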