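import Pool.Agent.P.MP_cfb0df_co.GEnt

/-! The 3-expansion of a theta graph with paths of lengths `g, g, l`. -/

open Finset

namespace Pool.Agent.P.MP_cfb0df_co.Th

open Classical in
theorem count_gen {V ι : Type} [Fintype V] [Fintype ι] (e : ι → Finset V) (u v : ι → V)
    (he : ∀ i x, x ∈ e i ↔ x = u i ∨ x = v i) {n : ℕ} (G : Finset (Finset (Fin n)))
    (i1 : Fintype (V ⊕ ι → Fin n))
    (i2 : DecidablePred (fun f : V ⊕ ι → Fin n => ∀ i, (expand e i).image f ∈ G)) :
    ((@Finset.filter _ (fun f : V ⊕ ι → Fin n => ∀ i, (expand e i).image f ∈ G) i2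
      (@univ _ i1)).card : ℝ) =
      ∑ g : V → Fin n, ∏ i, (ind G).U (g (u i)) (g (v i)) := by
  rw [← Finset.sum_boole, ← (Equiv.sumArrowEquivProdArrow V ι (Fin n)).symm.sum_comp,
    Fintype.sum_prod_type]
  refine Finset.sum_congr rfl fun g _ => ?_
  unfold Sym3.U
  rw [Fintype.prod_sum]
  refine Finset.sum_congr rfl fun h _ => ?_
  simp only [ind]
  rw [Finset.prod_boole]
  have : ∀ i, (expand e i).image ((Equiv.sumArrowEquivProdArrow V ι (Fin n)).symm (g, h)) =
      {g (u i), g (v i), h i} := by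
    intro i
    ext t
    simp [expand, he, eq_comm]
    tauto
  by_cases hc : ∀ i, ({g (u i), g (v i), h i} : Finset (Fin n)) ∈ G
  · rw [if_pos (fun i => this i ▸ hc i), if_pos (fun i _ => hc i)]
  · rw [if_neg (fun h' => hc fun i => this i ▸ h' i), if_neg (fun h' => hc fun i => h' i (mem_univ i))]

/-- vertices of a walk -/
def pth {Ω : Type} {s : ℕ} (y q : Ω) (w : Fin s → Ω) (j : ℕ) : Ω :=
  if j = 0 then y else if h : j - 1 < s then w ⟨j - 1, h⟩ else q

theorem pth_succ {Ω : Type} {s : ℕ} (y q x : Ω) (w : Fin s → Ω) (j : ℕ) :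
    pth y q (Fin.cons x w : Fin (s + 1) → Ω) (j + 1) = pth x q w j := by
  rcases j with _ | j
  · simp [pth]
  · unfold pth
    by_cases h : j < s
    · rw [if_neg (by omega), if_neg (by omega), dif_pos (by omega), dif_pos (by omega)]
      exact Fin.cons_succ (α := fun _ => Ω) x w ⟨j, h⟩
    · rw [if_neg (by omega), if_neg (by omega), dif_neg (by omega), dif_neg (by omega)]

theorem path_sum {Ω : Type} [Fintype Ω] (T : Sym3 Ω) (s : ℕ) (y q : Ω) :
    ∑ w : Fin s → Ω, ∏ j : Fin (s + 1), T.U (pth y q w j) (pth y q w (j + 1)) = T.S s y q := by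
  induction s generalizing y with
  | zero => simp [pth, Sym3.S]
  | succ s ih =>
    rw [sum_fun_succ, Sym3.S_succ]
    refine Finset.sum_congr rfl fun x _ => ?_
    rw [← ih, Finset.mul_sum]
    refine Finset.sum_congr rfl fun w _ => ?_
    rw [Fin.prod_univ_succ]
    simp only [Fin.val_succ, Fin.val_zero, pth_succ]
    rfl

theorem path_sum' {Ω : Type} [Fintype Ω] (T : Sym3 Ω) {L : ℕ} (hL : 1 ≤ L) (y q : Ω) :
    ∑ w : Fin (L - 1) → Ω, ∏ j : Fin L, T.U (pth y q w j) (pth y q w (j + 1)) =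
      T.S (L - 1) y q := by
  obtain ⟨s, rfl⟩ : ∃ s, L = s + 1 := ⟨L - 1, by omega⟩
  exact path_sum T s y q

open Classical in
theorem theta_sum {Ω : Type} [Fintype Ω] (T : Sym3 Ω) (len : Fin 3 → ℕ) (h : ∀ i, 1 ≤ len i)
    (i1 : Fintype (Fin 2 ⊕ (Σ i : Fin 3, Fin (len i - 1)) → Ω)) :
    ∑ g ∈ @univ _ i1, ∏ p : (Σ i : Fin 3, Fin (len i)),
      T.U (g (pos len p.1 p.2)) (g (pos len p.1 (p.2 + 1))) =
      ∑ y, ∑ q, ∏ i, T.S (len i - 1) y q := by
  rw [← (Equiv.sumArrowEquivProdArrow _ _ Ω).symm.sum_comp, Fintype.sum_prod_type,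
    ← (piFinTwoEquiv fun _ => Ω).symm.sum_comp, Fintype.sum_prod_type]
  refine Finset.sum_congr rfl fun y _ => Finset.sum_congr rfl fun q _ => ?_
  simp only [← path_sum' T (h _) y q]
  rw [Fintype.prod_sum, ← (Equiv.piCurry fun (i : Fin 3) (_ : Fin (len i - 1)) => Ω).symm.sum_comp]
  refine Finset.sum_congr rfl fun w _ => ?_
  rw [Fintype.prod_sigma]
  refine Finset.prod_congr rfl fun i _ => Finset.prod_congr rfl fun j _ => ?_
  have : ∀ m, (Equiv.sumArrowEquivProdArrow _ _ Ω).symm ((piFinTwoEquiv fun _ => Ω).symm (y, q),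
      (Equiv.piCurry fun (i : Fin 3) (_ : Fin (len i - 1)) => Ω).symm w) (pos len i m) =
      pth y q (w i) m := by
    intro m
    unfold pos pth
    split_ifs <;> rfl
  rw [this, this]

theorem sid_iff (a c : ℕ) : Sidorenko 3 (expand (theta ![a + 1, a + 1, c + 1])) ↔
    ∀ n : ℕ, 0 < n → ∀ G : Finset (Finset (Fin n)), (∀ g ∈ G, g.card = 3) →
      ((6 * G.card : ℕ) : ℝ) ^ (2 * a + c + 3) ≤
        (∑ y, ∑ q, (ind G).S a y q * (ind G).S a y q * (ind G).S c y q) *
          (n : ℝ) ^ (2 * a + c + 4) := by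
  refine forall_congr' fun n => forall_congr' fun hn => forall_congr' fun G =>
    forall_congr' fun _ => ?_
  have hn' : (0 : ℝ) < n := by exact_mod_cast hn
  have h1 := count_gen (theta ![a + 1, a + 1, c + 1])
    (fun p => pos _ p.1 p.2) (fun p => pos _ p.1 (p.2 + 1)) (fun i x => by simp [theta]) G
  have h2 := theta_sum (ind G) ![a + 1, a + 1, c + 1] (fun i => by fin_cases i <;> simp)
  have h3 : Fintype.card (Σ i : Fin 3, Fin (![a + 1, a + 1, c + 1] i)) = 2 * a + c + 3 := by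
    simp [Fin.sum_univ_three]; ring
  have h4 : Fintype.card ((Fin 2 ⊕ (Σ i : Fin 3, Fin (![a + 1, a + 1, c + 1] i - 1))) ⊕
      (Σ i : Fin 3, Fin (![a + 1, a + 1, c + 1] i))) = 4 * a + 2 * c + 5 := by
    simp [Fin.sum_univ_three]; ring
  have h5 : ∀ y q, ∏ i, (ind G).S (![a + 1, a + 1, c + 1] i - 1) y q =
      (ind G).S a y q * (ind G).S a y q * (ind G).S c y q := fun y q => by
    rw [Fin.prod_univ_three]; rfl
  simp only [h5] at h2
  rw [h3, h4, h1, h2, div_pow, div_le_div_iff₀ (by positivity) (by positivity),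
    show ((n : ℝ) ^ 3) ^ (2 * a + c + 3) = n ^ (2 * a + c + 4) * n ^ (4 * a + 2 * c + 5) by ring,
    ← mul_assoc, mul_le_mul_iff_left₀ (by positivity)]
  rfl

theorem tri_U (x y : Fin 3) : (ind ({univ} : Finset (Finset (Fin 3)))).U x y =
    if x = y then 0 else 1 := by
  unfold Sym3.U ind
  rw [Finset.sum_boole]
  have : ∀ x y : Fin 3, (univ.filter fun z => ({x, y, z} : Finset (Fin 3)) ∈
      ({univ} : Finset (Finset (Fin 3)))).card = if x = y then 0 else 1 := by decide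
  rw [this]
  split_ifs <;> simp

theorem tri_S (s : ℕ) (x y : Fin 3) : (ind ({univ} : Finset (Finset (Fin 3)))).S s x y =
    if x = y then (2 ^ (s + 1) + 2 * (-1) ^ (s + 1)) / 3 else (2 ^ (s + 1) - (-1) ^ (s + 1)) / 3 := by
  induction s generalizing x with
  | zero =>
    change (ind ({univ} : Finset (Finset (Fin 3)))).U x y = _
    rw [tri_U]; split_ifs <;> norm_num
  | succ s ih =>
    rw [Sym3.S_succ]
    simp only [ih, tri_U, Fin.sum_univ_three]
    fin_cases x <;> fin_cases y <;> simp <;> ring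

theorem main (g l : ℕ) (hg0 : 0 < g) (hg : Even g) (hl : Odd l) :
    Sidorenko 3 (expand (theta ![g, g, l])) ↔ g + 3 ≤ l := by
  obtain ⟨a, rfl⟩ : ∃ a, g = a + 1 := ⟨g - 1, by omega⟩
  obtain ⟨c, rfl⟩ : ∃ c, l = c + 1 := ⟨l - 1, by have := hl.pos; omega⟩
  rw [sid_iff]
  constructor
  · intro h
    have h1 := h 3 (by norm_num) {univ} (by simp)
    simp only [tri_S, hg.neg_one_pow, hl.neg_one_pow, Fin.sum_univ_three, Fin.reduceEq,
      reduceIte, card_singleton, mul_one, Nat.cast_ofNat] at h1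
    have h2 : (6 : ℝ) ^ (2 * a + c + 3) =
        (2 ^ (a + 1) * 2 ^ (a + 1) * 2 ^ (c + 1) / 3) * 3 ^ (2 * a + c + 4) := by
      rw [show (6 : ℝ) = 2 * 3 by norm_num, mul_pow]; ring
    rw [h2] at h1
    have h3 := le_of_mul_le_mul_right h1 (by positivity)
    have h4 : (2 : ℝ) ^ (a + 2) < 2 ^ (c + 1) := by
      rw [pow_succ 2 (a + 1)]; linarith
    have h5 := (pow_lt_pow_iff_right₀ (by norm_num : (1 : ℝ) < 2)).1 h4
    obtain ⟨k, hk⟩ := hg
    obtain ⟨m, hm⟩ := hl
    omega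
  · intro h n hn G hG
    obtain ⟨k, hk⟩ := hg
    obtain ⟨m, hm⟩ := hl
    obtain ⟨α, rfl⟩ : ∃ α, c = a + 2 * α + 3 := ⟨m - k - 1, by omega⟩
    have hm := (ind G).main_ineq a α (by simpa using hn)
    rw [Fintype.card_fin] at hm
    rw [show 2 * a + (a + 2 * α + 3) + 3 = 3 * a + 2 * α + 6 by ring,
      show 2 * a + (a + 2 * α + 3) + 4 = 3 * a + 2 * α + 7 by ring]
    exact (pow_le_pow_left₀ (by positivity) (N_ge G hG) _).trans hm

end Pool.Agent.P.MP_cfb0df_co.Th
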