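import Pool.Agent.P.MP_cfb0df_co.Entropy

set_option autoImplicit false

open Finset

namespace Pool.Agent.P.MP_cfb0df_co

variable {Ω : Type} [Fintype Ω]

namespace Sym3

variable (T : Sym3 Ω)

noncomputable def G1 : ℝ := ∑ v, ∑ x, ∑ q, T.R v x q * (Real.log (T.U v x) - Real.log (T.R v x q))

theorem W_le_U (v x y : Ω) : T.W v x y ≤ T.U v x :=
  Finset.single_le_sum (f := fun y => T.W v x y) (fun y _ => T.nonneg v x y) (Finset.mem_univ y)

theorem sum_R_all : ∑ v, ∑ x, ∑ q, T.R v x q = T.N := by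
  unfold N
  refine Finset.sum_congr rfl fun v _ => ?_
  rw [Finset.sum_comm, ← T.sum_M3]
  exact Finset.sum_congr rfl fun q _ => T.sum_R_mid v q

/-- marginal of the law of `(v, x, y, q)` on `(y, q)` -/
theorem margD (f : Ω → Ω → ℝ) :
    ∑ v, ∑ x, ∑ q, ∑ y, T.W v x y * (T.d y)⁻¹ * T.M2 y q * f y q = ∑ y, ∑ q, T.M2 y q * f y q := by
  rw [← T.marg1 f]
  refine Finset.sum_congr rfl fun v _ => ?_
  rw [Finset.sum_comm]
  refine Finset.sum_congr rfl fun q _ => ?_
  rw [Finset.sum_comm]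
  refine Finset.sum_congr rfl fun y _ => ?_
  rw [← Finset.sum_mul, ← Finset.sum_mul, ← Finset.sum_mul]
  congr 3
  unfold U
  exact Finset.sum_congr rfl fun x _ => T.s23 v x y

theorem stepD : T.Lam - T.H2 ≤ T.G1 := by
  have h := (gibbs (fun p : Ω × Ω × Ω × Ω => T.W p.1 p.2.1 p.2.2.2 * (T.d p.2.2.2)⁻¹ * T.M2 p.2.2.2 p.2.2.1)
    (fun p => T.W p.1 p.2.1 p.2.2.2 * (T.U p.1 p.2.1)⁻¹ * T.R p.1 p.2.1 p.2.2.1)
    (fun p => (Real.log (T.d p.2.2.2) - Real.log (T.M2 p.2.2.2 p.2.2.1)) -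
      (Real.log (T.U p.1 p.2.1) - Real.log (T.R p.1 p.2.1 p.2.2.1))) T.N T.N ?_ ?_ ?_ ?_ ?_).1
  · simp only [Fintype.sum_prod_type, sub_self, mul_zero] at h
    have e1 : ∑ v, ∑ x, ∑ q, ∑ y, T.W v x y * (T.d y)⁻¹ * T.M2 y q *
        (Real.log (T.d y) - Real.log (T.M2 y q)) = T.Lam - T.H2 := by
      rw [T.margD (fun y q => Real.log (T.d y) - Real.log (T.M2 y q)), ← T.sum_M2_log_d]
      unfold H2
      simp only [mul_sub, Finset.sum_sub_distrib]
    have e2 : ∑ v, ∑ x, ∑ q, ∑ y, T.W v x y * (T.d y)⁻¹ * T.M2 y q *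
        (Real.log (T.U v x) - Real.log (T.R v x q)) = T.G1 := by
      unfold G1
      refine Finset.sum_congr rfl fun v _ => Finset.sum_congr rfl fun x _ =>
        Finset.sum_congr rfl fun q _ => ?_
      rw [← Finset.sum_mul]
      rfl
    rw [← e1, ← e2]
    simp only [mul_sub (_ * _ * _) (_ - _) (_ - _), Finset.sum_sub_distrib] at h
    linarith
  · rintro ⟨v, x, q, y⟩
    have := T.nonneg v x y; have := T.M2_nonneg y q; have := T.d_nonneg y
    positivity
  · rintro ⟨v, x, q, y⟩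
    have := T.nonneg v x y; have := T.R_nonneg v x q; have := T.U_nonneg v x
    positivity
  · rintro ⟨v, x, q, y⟩ hw
    simp only at hw ⊢
    have h1 : T.W v x y ≠ 0 := by intro h; simp [h] at hw
    have h2 : T.M2 y q ≠ 0 := by intro h; simp [h] at hw
    have h3 : T.d y ≠ 0 := by intro h; simp [h] at hw
    have h1' := lt_of_le_of_ne (T.nonneg v x y) h1.symm
    have h4 : 0 < T.U v x := lt_of_lt_of_le h1' (T.W_le_U v x y)
    have h5 : 0 < T.R v x q := lt_of_lt_of_le hw
      (Finset.single_le_sum (f := fun y => T.W v x y * (T.d y)⁻¹ * T.M2 y q) (fun y _ => by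
        have := T.nonneg v x y; have := T.M2_nonneg y q; have := T.d_nonneg y
        positivity) (Finset.mem_univ y))
    refine ⟨by positivity, le_of_eq ?_⟩
    rw [Real.log_mul (mul_ne_zero h1 (inv_ne_zero h4.ne')) h5.ne',
      Real.log_mul h1 (inv_ne_zero h4.ne'),
      Real.log_mul (mul_ne_zero h1 (inv_ne_zero h3)) h2,
      Real.log_mul h1 (inv_ne_zero h3), Real.log_inv, Real.log_inv]
    ring
  · simp only [Fintype.sum_prod_type]
    exact T.sum_R_all
  · simp only [Fintype.sum_prod_type]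
    rw [← T.sum_R_all]
    refine Finset.sum_le_sum fun v _ => Finset.sum_le_sum fun x _ =>
      Finset.sum_le_sum fun q _ => ?_
    rw [← Finset.sum_mul, ← Finset.sum_mul]
    have h1 : (∑ y, T.W v x y) * (T.U v x)⁻¹ ≤ 1 := mul_inv_le_one
    have := T.R_nonneg v x q
    nlinarith

/-- homomorphism count of the theta graph with paths of lengths 2, 2, 5 -/
noncomputable def hom : ℝ :=
  ∑ y, ∑ q, ∑ v, ∑ x, T.S2 y q * T.S2 y q * T.U v y * T.U v x * T.S3 x q

noncomputable def rho (y q v x : Ω) : ℝ :=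
  T.U v y * (T.d y)⁻¹ * T.M2 y q * ((T.M3 v q)⁻¹ * T.R v x q)

theorem term_le_M3 (v y q : Ω) : T.U v y * (T.d y)⁻¹ * T.M2 y q ≤ T.M3 v q :=
  Finset.single_le_sum (f := fun y => T.U v y * (T.d y)⁻¹ * T.M2 y q) (fun y _ => by
    have := T.U_nonneg v y; have := T.M2_nonneg y q; have := T.d_nonneg y
    positivity) (Finset.mem_univ y)

theorem rho_sum_x (y q v : Ω) : ∑ x, T.rho y q v x = T.U v y * (T.d y)⁻¹ * T.M2 y q := by
  unfold rho
  rw [← Finset.mul_sum, ← Finset.mul_sum, T.sum_R_mid]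
  rcases (T.M3_nonneg v q).eq_or_lt with h | h
  · have h1 := T.term_le_M3 v y q
    have h2 : 0 ≤ T.U v y * (T.d y)⁻¹ * T.M2 y q := by
      have := T.U_nonneg v y; have := T.M2_nonneg y q; have := T.d_nonneg y
      positivity
    have : T.U v y * (T.d y)⁻¹ * T.M2 y q = 0 := by linarith
    rw [this]; simp
  · rw [inv_mul_cancel₀ h.ne', mul_one]

theorem rho_sum_y (q v x : Ω) : ∑ y, T.rho y q v x = T.R v x q := by
  unfold rho
  rw [← Finset.sum_mul]
  change T.M3 v q * _ = _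
  rcases (T.M3_nonneg v q).eq_or_lt with h | h
  · have h1 := T.R_le_M3 v x q
    have h2 := T.R_nonneg v x q
    have : T.R v x q = 0 := by linarith
    rw [this]; simp
  · field_simp

theorem margC1 (f : Ω → Ω → ℝ) :
    ∑ y, ∑ q, ∑ v, ∑ x, T.rho y q v x * f y q = ∑ y, ∑ q, T.M2 y q * f y q := by
  refine Finset.sum_congr rfl fun y _ => Finset.sum_congr rfl fun q _ => ?_
  simp only [← Finset.sum_mul, T.rho_sum_x]
  rw [T.sum_U_left, T.d_mul_inv_mul]

theorem margC2 (g : Ω → Ω → Ω → ℝ) :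
    ∑ y, ∑ q, ∑ v, ∑ x, T.rho y q v x * g v x q = ∑ v, ∑ x, ∑ q, T.R v x q * g v x q := by
  calc ∑ y, ∑ q, ∑ v, ∑ x, T.rho y q v x * g v x q
      = ∑ q, ∑ y, ∑ v, ∑ x, T.rho y q v x * g v x q := Finset.sum_comm
    _ = ∑ q, ∑ v, ∑ y, ∑ x, T.rho y q v x * g v x q :=
        Finset.sum_congr rfl fun q _ => Finset.sum_comm
    _ = ∑ q, ∑ v, ∑ x, ∑ y, T.rho y q v x * g v x q :=
        Finset.sum_congr rfl fun q _ => Finset.sum_congr rfl fun v _ => Finset.sum_comm
    _ = ∑ q, ∑ v, ∑ x, T.R v x q * g v x q := by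
        simp only [← Finset.sum_mul, T.rho_sum_y]
    _ = ∑ v, ∑ q, ∑ x, T.R v x q * g v x q := Finset.sum_comm
    _ = ∑ v, ∑ x, ∑ q, T.R v x q * g v x q :=
        Finset.sum_congr rfl fun v _ => Finset.sum_comm

theorem margR1 (f : Ω → Ω → ℝ) :
    ∑ v, ∑ x, ∑ q, T.R v x q * f v q = ∑ v, ∑ q, T.M3 v q * f v q := by
  refine Finset.sum_congr rfl fun v _ => ?_
  rw [Finset.sum_comm]
  refine Finset.sum_congr rfl fun q _ => ?_
  rw [← Finset.sum_mul, T.sum_R_mid]

theorem margR2 (f : Ω → Ω → ℝ) :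
    ∑ v, ∑ x, ∑ q, T.R v x q * f x q = ∑ v, ∑ q, T.M3 v q * f v q := by
  rw [Finset.sum_comm, ← T.margR1 f]
  refine Finset.sum_congr rfl fun v _ => Finset.sum_congr rfl fun x _ =>
    Finset.sum_congr rfl fun q _ => ?_
  rw [T.R_symm]

theorem stepC : 2 * T.K2 - T.H2 + T.Lam + T.G1 + T.K3 + T.H3 ≤
    T.N * (Real.log T.hom - Real.log T.N) ∧ (0 < T.N → 0 < T.hom) := by
  have h := (gibbs (fun p : Ω × Ω × Ω × Ω => T.rho p.1 p.2.1 p.2.2.1 p.2.2.2)
    (fun p => T.S2 p.1 p.2.1 * T.S2 p.1 p.2.1 * T.U p.2.2.1 p.1 * T.U p.2.2.1 p.2.2.2 *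
      T.S3 p.2.2.2 p.2.1)
    (fun p => (2 * Real.log (T.S2 p.1 p.2.1) - Real.log (T.M2 p.1 p.2.1) + Real.log (T.d p.1)) +
      ((Real.log (T.U p.2.2.1 p.2.2.2) - Real.log (T.R p.2.2.1 p.2.2.2 p.2.1)) +
        Real.log (T.S3 p.2.2.2 p.2.1) + Real.log (T.M3 p.2.2.1 p.2.1))) T.N T.hom ?_ ?_ ?_ ?_ ?_)
  · refine ⟨?_, h.2⟩
    have h1 := h.1
    simp only [Fintype.sum_prod_type] at h1
    have e1 : ∑ y, ∑ q, ∑ v, ∑ x, T.rho y q v x *
        (2 * Real.log (T.S2 y q) - Real.log (T.M2 y q) + Real.log (T.d y))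
        = 2 * T.K2 - T.H2 + T.Lam := by
      rw [T.margC1 (fun y q => 2 * Real.log (T.S2 y q) - Real.log (T.M2 y q) + Real.log (T.d y)),
        ← T.sum_M2_log_d]
      unfold K2 H2
      simp only [Finset.mul_sum, ← Finset.sum_sub_distrib, ← Finset.sum_add_distrib]
      refine Finset.sum_congr rfl fun y _ => Finset.sum_congr rfl fun q _ => ?_
      ring
    have e2 : ∑ y, ∑ q, ∑ v, ∑ x, T.rho y q v x *
        ((Real.log (T.U v x) - Real.log (T.R v x q)) +
          Real.log (T.S3 x q) + Real.log (T.M3 v q)) = T.G1 + T.K3 + T.H3 := by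
      rw [T.margC2 (fun v x q => (Real.log (T.U v x) - Real.log (T.R v x q)) +
          Real.log (T.S3 x q) + Real.log (T.M3 v q))]
      unfold G1 K3 H3
      rw [← T.margR2 (fun x q => Real.log (T.S3 x q)), ← T.margR1 (fun x q => Real.log (T.M3 x q))]
      simp only [← Finset.sum_add_distrib]
      refine Finset.sum_congr rfl fun v _ => Finset.sum_congr rfl fun x _ =>
        Finset.sum_congr rfl fun q _ => ?_
      ring
    simp only [mul_add (T.rho _ _ _ _) (_ + _) (_ + _), Finset.sum_add_distrib] at h1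
    rw [e1, e2] at h1
    linarith
  · rintro ⟨y, q, v, x⟩
    have := T.U_nonneg v y; have := T.M2_nonneg y q; have := T.d_nonneg y
    have := T.M3_nonneg v q; have := T.R_nonneg v x q
    unfold rho
    positivity
  · rintro ⟨y, q, v, x⟩
    have := T.U_nonneg v y; have := T.S2_nonneg y q; have := T.U_nonneg v x
    have := T.S3_nonneg x q
    positivity
  · rintro ⟨y, q, v, x⟩ hw
    simp only [rho] at hw ⊢
    have h1 : T.U v y ≠ 0 := by intro h; simp [h] at hw
    have h2 : T.M2 y q ≠ 0 := by intro h; simp [h] at hw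
    have h3 : T.d y ≠ 0 := by intro h; simp [h] at hw
    have h4 : T.M3 v q ≠ 0 := by intro h; simp [h] at hw
    have h5 : T.R v x q ≠ 0 := by intro h; simp [h] at hw
    have h1' := lt_of_le_of_ne (T.U_nonneg v y) h1.symm
    have h2' := lt_of_le_of_ne (T.M2_nonneg y q) h2.symm
    have h5' := lt_of_le_of_ne (T.R_nonneg v x q) h5.symm
    have h6 : 0 < T.S2 y q := (T.stepA2_pt y q).2 h2'
    have h7 : 0 < T.S3 x q := by
      refine (T.stepA3_pt x q).2 (lt_of_lt_of_le h5' ?_)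
      rw [T.R_symm]; exact T.R_le_M3 x v q
    have h8 : 0 < T.U v x := by
      rcases (T.U_nonneg v x).eq_or_lt with h | h
      · exfalso
        apply h5
        unfold R
        refine Finset.sum_eq_zero fun z _ => ?_
        have a1 := T.W_le_U v x z
        have a2 := T.nonneg v x z
        have : T.W v x z = 0 := by linarith
        simp [this]
      · exact h
    refine ⟨by positivity, le_of_eq ?_⟩
    rw [Real.log_mul (by positivity) h7.ne', Real.log_mul (by positivity) h8.ne',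
      Real.log_mul (by positivity) h1, Real.log_mul h6.ne' h6.ne',
      Real.log_mul (mul_ne_zero (mul_ne_zero h1 (inv_ne_zero h3)) h2)
        (mul_ne_zero (inv_ne_zero h4) h5),
      Real.log_mul (mul_ne_zero h1 (inv_ne_zero h3)) h2, Real.log_mul h1 (inv_ne_zero h3),
      Real.log_mul (inv_ne_zero h4) h5, Real.log_inv, Real.log_inv]
    ring
  · simp only [Fintype.sum_prod_type]
    have := T.margC1 (fun _ _ => 1)
    simp only [mul_one] at this
    rw [this]
    unfold N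
    exact Finset.sum_congr rfl fun y _ => T.sum_M2 y
  · simp only [Fintype.sum_prod_type]
    exact le_rfl

theorem hom_nonneg : 0 ≤ T.hom := by
  unfold hom
  refine Finset.sum_nonneg fun y _ => Finset.sum_nonneg fun q _ => Finset.sum_nonneg fun v _ =>
    Finset.sum_nonneg fun x _ => ?_
  have := T.U_nonneg v y; have := T.S2_nonneg y q; have := T.U_nonneg v x
  have := T.S3_nonneg x q
  positivity

theorem N_nonneg : 0 ≤ T.N := Finset.sum_nonneg fun x _ => T.d_nonneg x

theorem main_ineq (hn : 0 < Fintype.card Ω) :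
    T.N ^ 9 ≤ T.hom * (Fintype.card Ω : ℝ) ^ 10 := by
  have hn' : (0 : ℝ) < Fintype.card Ω := by exact_mod_cast hn
  rcases T.N_nonneg.eq_or_lt with h | h
  · rw [← h]
    have := T.hom_nonneg
    simp only [ne_eq, OfNat.ofNat_ne_zero, not_false_eq_true, zero_pow]
    positivity
  · obtain ⟨c1, c2⟩ := T.stepC
    have hh := c2 h
    have a2 := T.stepA2
    have a3 := T.stepA3
    have d1 := T.stepD
    have e1 := T.stepE1
    have e2 := T.stepE2
    rw [Real.log_pow] at e1
    have key : T.N * (9 * Real.log T.N) ≤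
        T.N * (Real.log T.hom + 10 * Real.log (Fintype.card Ω : ℝ)) := by
      push_cast at e1
      nlinarith
    have key2 := le_of_mul_le_mul_left key h
    rw [← Real.log_le_log_iff (by positivity) (by positivity), Real.log_mul hh.ne' (by positivity),
      Real.log_pow, Real.log_pow]
    push_cast
    exact key2

end Sym3

end Pool.Agent.P.MP_cfb0df_co
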